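import Pool.Agent.H445.FE.B

/-!
# Four exponentials: products and their exponentials
-/

set_option autoImplicit false

open Set Module MeasureTheory MvPolynomial
open Pool.Agent.TH813.Rel (DF MK subset_cl rk_le_of_subset_cl cl_of_base exists_derF mem_cl)
open Pool.Agent.Y685
open Pool.Agent.Y776 (Tf lg lgL Tf_lin lg_lin ET ET_finite)
open scoped NNReal ENNReal

noncomputable section

namespace Pool.Agent.H445

/-- a point of a closed field has no compatible directions -/
theorem Tan_zero {n : ℕ} {K : Subfield ℂ} {z : Fin n → ℂ} (h : ∀ j, z j ∈ K) :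
    finrank ℂ (Tan PE K (PhE z)) = 0 := by
  rw [Submodule.finrank_eq_zero, Submodule.eq_bot_iff]
  intro v hv
  obtain ⟨D, hD, h1⟩ := Tan_DE hv
  funext j
  rw [← h1 j]
  exact hD.1 _ (h j)

/-- the exponentials of a tuple -/
abbrev EX {n : ℕ} (z : Fin n → ℂ) : Set ℂ := range fun i => Complex.exp (z i)

theorem EX_finite {n : ℕ} (z : Fin n → ℂ) : (EX z).Finite := finite_range _

/-- the rank of the exponentials of a tuple some coordinates of which are logarithms of
algebraic numbers -/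
theorem rank_EX_le {C : IntermediateField ℚ ℂ} {N r : ℕ} (z : Fin N → ℂ) (R : Finset (Fin N))
    (hR : ∀ p, p ∉ R → IsAlgebraic ℚ (Complex.exp (z p))) (hr : R.card ≤ r) :
    (MK C).eRk (EX z) ≤ (r : ℕ∞) := by
  have h1 : EX z ⊆ (MK C).closure ((fun p => Complex.exp (z p)) '' (R : Set (Fin N))) := by
    rintro _ ⟨p, rfl⟩
    by_cases hp : p ∈ R
    · exact subset_cl _ ⟨p, hp, rfl⟩
    · exact alg_mem_clF (hR p hp) _
  refine (rk_le_of_subset_cl h1).trans (((MK C).eRk_le_encard _).trans ?_)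
  refine (encard_image_le _ _).trans ?_
  rw [encard_coe_eq_coe_finsetCard]
  exact_mod_cast hr

/-- the points of a product type -/
def PrdR (C : IntermediateField ℚ ℂ) (m n k : ℕ) (z : Fin (m * n) → ℂ) : Prop :=
  ∃ (x : Fin m → ℂ) (y : Fin n → ℂ), LinearIndependent ℚ x ∧ LinearIndependent ℚ y ∧
    (∀ i j, z (finProdFinEquiv (i, j)) = x i * y j) ∧ (MK C).eRk (EX z) ≤ (k : ℕ∞)

theorem quad_eq {x y : Fin 2 → ℂ} {z : Fin (2 * 2) → ℂ}
    (h : ∀ i j, z (finProdFinEquiv (i, j)) = x i * y j) : z = quad x y := by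
  funext p
  have h1 : z p = x (finProdFinEquiv.symm p).1 * y (finProdFinEquiv.symm p).2 := by
    rw [← h, Prod.mk.eta, Equiv.apply_symm_apply]
  rw [h1]
  fin_cases p <;> rfl

/-- **2 × 2: the number of the directions** -/
theorem PrdR.le_two {C : IntermediateField ℚ ℂ} {K : Subfield ℂ} (hK : ClE K) {L : PeriodPair}
    (hL2 : L.g₂ ∈ K) (hL3 : L.g₃ ∈ K) (hC : C ≤ IFd K) {k : ℕ} {z : Fin (2 * 2) → ℂ}
    (hz : PrdR C 2 2 k z) :
    finrank ℂ (Tan PE K (PhE z)) ≤ min k 4 - 1 ∧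
      (finrank ℂ (Tan PE K (PhE z)) = 0 → ∀ j, z j ∈ K) := by
  obtain ⟨x, y, hx, hy, hxy, hk⟩ := hz
  have h0 := quad_eq hxy
  subst h0
  by_cases hall : ∀ j, quad x y j ∈ K
  · have h1 := Tan_zero hall
    exact ⟨by rw [h1]; exact Nat.zero_le _, fun _ => hall⟩
  · push Not at hall
    obtain ⟨h1, h2, -⟩ := hK.quad_cost hL2 hL3 hx hy hall
    have h3 : (MK (IFd K)).eRk (EX (quad x y)) ≤ (k : ℕ∞) :=
      (rank_mono_base hC (EX_finite _)).trans hk
    have h4 : (MK (IFd K)).eRk (EX (quad x y)) ≤ (4 : ℕ∞) := by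
      refine ((MK _).eRk_le_encard _).trans ?_
      rw [EX, ← image_univ]
      refine (encard_image_le _ _).trans ?_
      rw [encard_univ]
      simp
    have h5 : finrank ℂ (Tan PE K (PhE (quad x y))) + 1 ≤ k := by exact_mod_cast h2.trans h3
    have h6 : finrank ℂ (Tan PE K (PhE (quad x y))) + 1 ≤ 4 := by exact_mod_cast h2.trans h4
    obtain ⟨d, hd⟩ : ∃ d, finrank ℂ (Tan PE K (PhE (quad x y))) = d := ⟨_, rfl⟩
    rw [hd] at h1 h5 h6
    have h7 : finrank ℂ (Tan PE K (PhE (n := 2 * 2) (quad x y))) = d := hd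
    rw [h7]
    exact ⟨by omega, fun h => by omega⟩

/-- the point with given entries in the first row and the first column -/
def pt2 {𝕜 : Type} [Field 𝕜] (w : Fin 3 → 𝕜) : Fin (2 * 2) → 𝕜 :=
  ![w 0, w 1, w 2, w 1 * w 2 / w 0]

def pt3 {𝕜 : Type} [Field 𝕜] (w : Fin 4 → 𝕜) : Fin (3 * 2) → 𝕜 :=
  ![w 0, w 1, w 2, w 1 * w 2 / w 0, w 3, w 1 * w 3 / w 0]

theorem pt2_prd {w : Fin 3 → ℂ} (hw : LinearIndependent ℚ w) :
    ∃ (x : Fin 2 → ℂ) (y : Fin 2 → ℂ), LinearIndependent ℚ x ∧ LinearIndependent ℚ y ∧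
    (∀ i j, pt2 w (finProdFinEquiv (i, j)) = x i * y j) := by
  have h0 : w 0 ≠ 0 := hw.ne_zero 0
  have h2 : LinearIndependent ℚ ![w 0, w 2] := by
    have := hw.comp ![0, 2] (by decide)
    convert this using 1
    funext i
    fin_cases i <;> rfl
  have h1 : LinearIndependent ℚ ![w 0, w 1] := by
    have := hw.comp ![0, 1] (by decide)
    convert this using 1
    funext i
    fin_cases i <;> rfl
  refine ⟨![1, w 2 / w 0], ![w 0, w 1], ?_, h1, ?_⟩
  · rw [Fintype.linearIndependent_iff] at h2 ⊢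
    intro g hg
    apply h2 g
    rw [Fin.sum_univ_two] at hg ⊢
    simp only [Matrix.cons_val_zero, Matrix.cons_val_one, Rat.smul_def] at hg ⊢
    have : (g 0 : ℂ) * w 0 + g 1 * w 2 = w 0 * ((g 0 : ℂ) * 1 + g 1 * (w 2 / w 0)) := by
      field_simp
    rw [this, hg, mul_zero]
  · intro i j
    fin_cases i <;> fin_cases j
    · change w 0 = 1 * w 0
      ring
    · change w 1 = 1 * w 1
      ring
    · change w 2 = w 2 / w 0 * w 0
      field_simp
    · change w 1 * w 2 / w 0 = w 2 / w 0 * w 1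
      ring

theorem pt3_prd {w : Fin 4 → ℂ} (hw : LinearIndependent ℚ w) :
    ∃ (x : Fin 3 → ℂ) (y : Fin 2 → ℂ), LinearIndependent ℚ x ∧ LinearIndependent ℚ y ∧
    (∀ i j, pt3 w (finProdFinEquiv (i, j)) = x i * y j) := by
  have h0 : w 0 ≠ 0 := hw.ne_zero 0
  have h2 : LinearIndependent ℚ ![w 0, w 2, w 3] := by
    have := hw.comp ![0, 2, 3] (by decide)
    convert this using 1
    funext i
    fin_cases i <;> rfl
  have h1 : LinearIndependent ℚ ![w 0, w 1] := by
    have := hw.comp ![0, 1] (by decide)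
    convert this using 1
    funext i
    fin_cases i <;> rfl
  refine ⟨![1, w 2 / w 0, w 3 / w 0], ![w 0, w 1], ?_, h1, ?_⟩
  · rw [Fintype.linearIndependent_iff] at h2 ⊢
    intro g hg
    apply h2 g
    rw [Fin.sum_univ_three] at hg ⊢
    simp only [Matrix.cons_val_zero, Matrix.cons_val_one, Matrix.cons_val, Rat.smul_def] at hg ⊢
    have : (g 0 : ℂ) * w 0 + g 1 * w 2 + g 2 * w 3 =
        w 0 * ((g 0 : ℂ) * 1 + g 1 * (w 2 / w 0) + g 2 * (w 3 / w 0)) := by
      field_simp
    rw [this, hg, mul_zero]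
  · intro i j
    fin_cases i <;> fin_cases j
    · change w 0 = 1 * w 0
      ring
    · change w 1 = 1 * w 1
      ring
    · change w 2 = w 2 / w 0 * w 0
      field_simp
    · change w 1 * w 2 / w 0 = w 2 / w 0 * w 1
      ring
    · change w 3 = w 3 / w 0 * w 0
      field_simp
    · change w 1 * w 3 / w 0 = w 3 / w 0 * w 1
      ring

/-- the logarithms and the free numbers together -/
def mix {𝕜 : Type} {s d M : ℕ} (h : s + d = M) (c : Fin s → 𝕜) (u : Fin d → 𝕜) : Fin M → 𝕜 :=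
  fun i => Fin.append c u (Fin.cast h.symm i)

theorem mix_li {s d M : ℕ} (h : s + d = M) {c : Fin s → ℂ} {u : Fin d → ℂ}
    (hli : LinearIndependent ℚ (Fin.append c u)) : LinearIndependent ℚ (mix h c u) :=
  hli.comp _ (Fin.cast_injective _)

theorem mix_real {s d M : ℕ} (h : s + d = M) (c : Fin s → ℝ) (u : Fin d → ℝ) (i : Fin M) :
    ((mix h c u i : ℝ) : ℂ) = mix h (fun i => (c i : ℂ)) (fun i => (u i : ℂ)) i := by
  unfold mix
  refine Fin.addCases (fun i => ?_) (fun j => ?_) (Fin.cast h.symm i)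
  · rw [Fin.append_left, Fin.append_left]
  · rw [Fin.append_right, Fin.append_right]

theorem mix_alg {s d M : ℕ} (h : s + d = M) {c : Fin s → ℂ} {u : Fin d → ℂ}
    (hc : ∀ i, IsAlgebraic ℚ (Complex.exp (c i))) (i : Fin M) (hi : (i : ℕ) < s) :
    IsAlgebraic ℚ (Complex.exp (mix h c u i)) := by
  have h1 : Fin.cast h.symm i = Fin.castAdd d ⟨i, hi⟩ := Fin.ext rfl
  unfold mix
  rw [h1, Fin.append_left]
  exact hc _

theorem mix_free {𝕜 : Type} {s d M : ℕ} (h : s + d = M) (c : Fin s → 𝕜) (u : Fin d → 𝕜)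
    (j : Fin d) : mix h c u ⟨s + j, by omega⟩ = u j := by
  unfold mix
  have h1 : Fin.cast h.symm ⟨s + j, by omega⟩ = Fin.natAdd s j := Fin.ext rfl
  rw [h1, Fin.append_right]

/-- **2 × 2: many free directions** -/
theorem low_two {C : IntermediateField ℚ ℂ} {k s d : ℕ} (h : s + d = 3) (hk : d + 1 ≤ k)
    {c : Fin s → ℂ} (hc : ∀ i, IsAlgebraic ℚ (Complex.exp (c i))) {u : Fin d → ℂ}
    (hli : LinearIndependent ℚ (Fin.append c u)) : PrdR C 2 2 k (pt2 (mix h c u)) := by
  obtain ⟨x, y, hx, hy, hxy⟩ := pt2_prd (mix_li h hli)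
  refine ⟨x, y, hx, hy, hxy, ?_⟩
  have ha := mix_alg h (u := u) hc
  refine rank_EX_le _ (Finset.univ.filter fun p : Fin 4 => s ≤ (p : ℕ)) ?_ ?_
  · intro p hp
    rw [Finset.mem_filter, not_and] at hp
    have hp' := hp (Finset.mem_univ _)
    rw [not_le] at hp'
    fin_cases p
    · exact ha 0 hp'
    · exact ha 1 hp'
    · exact ha 2 hp'
    · exfalso
      change 3 < s at hp'
      omega
  · refine le_trans ?_ hk
    have hs : s ≤ 3 := by omega
    obtain rfl : d = 3 - s := by omega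
    interval_cases s <;> decide

/-- **3 × 2: many free directions** -/
theorem low_three {C : IntermediateField ℚ ℂ} {k s d : ℕ} (h : s + d = 4) (hk : d + 2 ≤ k)
    {c : Fin s → ℂ} (hc : ∀ i, IsAlgebraic ℚ (Complex.exp (c i))) {u : Fin d → ℂ}
    (hli : LinearIndependent ℚ (Fin.append c u)) : PrdR C 3 2 k (pt3 (mix h c u)) := by
  obtain ⟨x, y, hx, hy, hxy⟩ := pt3_prd (mix_li h hli)
  refine ⟨x, y, hx, hy, hxy, ?_⟩
  have ha := mix_alg h (u := u) hc
  refine rank_EX_le _ (Finset.univ.filter fun p : Fin 6 =>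
    ((p : ℕ) = 3 ∨ (p : ℕ) = 5 ∨ s ≤ (p : ℕ)) ∧ ((p : ℕ) = 4 → s ≤ 3)) ?_ ?_
  · intro p hp
    rw [Finset.mem_filter, not_and] at hp
    have hp' := hp (Finset.mem_univ _)
    fin_cases p
    · exact ha 0 (by
        change 0 < s
        by_contra hcon
        exact hp' ⟨by simp; omega, by simp⟩)
    · exact ha 1 (by
        change 1 < s
        by_contra hcon
        exact hp' ⟨by simp; omega, by simp⟩)
    · exact ha 2 (by
        change 2 < s
        by_contra hcon
        exact hp' ⟨by simp; omega, by simp⟩)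
    · exact absurd (show _ from ⟨by simp, by simp⟩) hp'
    · exact ha 3 (by
        change 3 < s
        by_contra hcon
        exact hp' ⟨by simp; omega, by simp; omega⟩)
    · exact absurd (show _ from ⟨by simp, by simp⟩) hp'
  · refine le_trans ?_ hk
    have hs : s ≤ 4 := by omega
    obtain rfl : d = 4 - s := by omega
    interval_cases s <;> decide

end Pool.Agent.H445
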