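import Pool.Agent.H445.ExpF

/-!
# Four exponentials: the cost of a point outside of a closed field
-/

set_option autoImplicit false

open Set Module MvPolynomial
open Pool.Agent.TH813.Rel (DF MK subset_cl rk_le_of_subset_cl cl_of_base exists_derF mem_cl)
open Pool.Agent.Y685
open Pool.Agent.Y776 (Tf lg lgL Tf_lin lg_lin ET ET_finite TfL TfL_apply Good good_der good_union
  countable_bad exists_chain grC Grad)
open Pool.Agent.W245.EB Pool.Agent.TH813.Ell H667R3 Pool.Agent.Y119.CB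

noncomputable section

namespace Pool.Agent.H445

variable {n : ℕ}

/-- **The moving part of a tuple, over a closed field** -/
theorem ClE.cost {K : Subfield ℂ} (hK : ClE K) {L : PeriodPair} (hL2 : L.g₂ ∈ K) (hL3 : L.g₃ ∈ K)
    (z : Fin n → ℂ) :
    ∃ V₁ : Submodule ℚ ℂ, FiniteDimensional ℚ V₁ ∧ V₁ ≤ Submodule.span ℚ (range z) ∧
      (∀ i, ∃ a ∈ KQ K, ∃ b ∈ V₁, z i = a + b) ∧
      ((finrank ℚ V₁ + finrank ℂ (Tan PE K (PhE z)) : ℕ) : ℕ∞) ≤ (MK (IFd K)).eRk (ET z) ∧
      (finrank ℂ (Tan PE K (PhE z)) = 0 → ∀ j, z j ∈ K) := by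
  classical
  obtain ⟨κ, hE⟩ := exists_eig L
  set V : Submodule ℚ ℂ := Submodule.span ℚ (range z) with hV
  have hVf : FiniteDimensional ℚ V := FiniteDimensional.span_of_finite ℚ (finite_range z)
  set V₀ : Submodule ℚ ℂ := V ⊓ KQ K with hV₀
  have hV₀V : V₀ ≤ V := inf_le_left
  have hV₀f : FiniteDimensional ℚ V₀ := Submodule.finiteDimensional_of_le hV₀V
  obtain ⟨W, hW⟩ := Submodule.exists_isCompl (V₀.comap V.subtype)
  let V₁ : Submodule ℚ ℂ := W.map V.subtype
  have hV₁V : V₁ ≤ V := Submodule.map_subtype_le V W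
  have hV₁f : FiniteDimensional ℚ V₁ := Submodule.finiteDimensional_of_le hV₁V
  have hdj : ∀ x ∈ V₁, x ∈ K → x = 0 := by
    rintro _ ⟨x, hx, rfl⟩ hx1
    have h4 : x ∈ (V₀.comap V.subtype) ⊓ W := ⟨⟨x.2, hx1⟩, hx⟩
    rw [hW.inf_eq_bot, Submodule.mem_bot] at h4
    rw [h4]
    rfl
  have hdec : ∀ x ∈ V, ∃ a ∈ V₀, ∃ b ∈ V₁, x = a + b := by
    intro x hx
    have h8 : (⟨x, hx⟩ : V) ∈ (V₀.comap V.subtype) ⊔ W := by
      rw [hW.sup_eq_top]; exact Submodule.mem_top
    obtain ⟨a, ha, b, hb, hab⟩ := Submodule.mem_sup.1 h8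
    exact ⟨a, ha, b, ⟨b, hb, rfl⟩, (congrArg Subtype.val hab).symm⟩
  -- the compatible derivations
  set Δ := DE K z with hΔ
  have hch := chain (L := L) (κ := κ) (K := IFd K) hE hL2 hL3 (Δ := Δ) (fun D hD => hD.1) _ V₁ hV₁f
    rfl (fun D hD x hx => DE_span hD (hV₁V hx))
    (fun x hx hx0 => hK.moves z (fun h => hx0 (hdj x hx h)))
  -- the dimension of the directions
  set d := finrank ℂ (Tan PE K (PhE z)) with hd
  have hd1 : d ≤ finrank ℂ (Δ.map (eV V₁)) := by
    have hex : ∀ v : Tan PE K (PhE z), ∃ D ∈ Δ, ∀ j, D (z j) = v.1 j := fun v => Tan_DE v.2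
    let evz : Derivation ℚ ℂ ℂ →ₗ[ℂ] (Fin n → ℂ) :=
      { toFun := fun D j => D (z j)
        map_add' := fun _ _ => rfl
        map_smul' := fun _ _ => rfl }
    -- restriction to `V₁` is injective
    have h4 : Tan PE K (PhE z) ≤ Δ.map evz := by
      intro v hv
      obtain ⟨D, hD, h5⟩ := hex ⟨v, hv⟩
      exact ⟨D, hD, funext h5⟩
    have h5 : finrank ℂ (Δ.map evz) ≤ finrank ℂ (Δ.map (eV V₁)) := by
      let f := (eV V₁).domRestrict Δ
      let g := evz.domRestrict Δ
      have hf : LinearMap.range f = Δ.map (eV V₁) := by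
        rw [LinearMap.range_domRestrict]
      have hg : LinearMap.range g = Δ.map evz := by
        rw [LinearMap.range_domRestrict]
      have hker : LinearMap.ker f ≤ LinearMap.ker g := by
        rintro ⟨D, hD⟩ h0
        have h6 : ∀ x ∈ V₁, D x = 0 := fun x hx => LinearMap.congr_fun h0 ⟨x, hx⟩
        have h7 : ∀ x ∈ V, D x = 0 := by
          intro x hx
          obtain ⟨a, ha, b, hb, h9⟩ := hdec x hx
          rw [h9, map_add, hD.1 _ ha.2, h6 _ hb, add_zero]
        exact funext fun j => h7 _ (Submodule.subset_span ⟨j, rfl⟩)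
      rw [← hf, ← hg]
      have h6 : Function.Surjective (LinearMap.rangeRestrict f) := LinearMap.surjective_rangeRestrict f
      obtain ⟨s, hs⟩ := (LinearMap.rangeRestrict f).exists_rightInverse_of_surjective
        (LinearMap.range_eq_top.2 h6)
      let φ : LinearMap.range f →ₗ[ℂ] LinearMap.range g := (LinearMap.rangeRestrict g) ∘ₗ s
      have hφ : Function.Surjective φ := by
        rintro ⟨_, D, rfl⟩
        refine ⟨LinearMap.rangeRestrict f D, ?_⟩
        have h7 : s (LinearMap.rangeRestrict f D) - D ∈ LinearMap.ker f := by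
          rw [LinearMap.mem_ker, map_sub, sub_eq_zero]
          have := LinearMap.congr_fun hs (LinearMap.rangeRestrict f D)
          exact congrArg Subtype.val this
        have h8 := hker h7
        rw [LinearMap.mem_ker, map_sub, sub_eq_zero] at h8
        exact Subtype.ext h8
      exact LinearMap.finrank_le_finrank_of_surjective hφ
    exact (Submodule.finrank_mono h4).trans h5
  have hd3 : d = 0 → finrank ℚ V₁ = 0 := by
    intro h0
    by_contra hne
    obtain ⟨x, hx, hx0⟩ : ∃ x ∈ V₁, x ≠ 0 := by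
      by_contra hcon
      push Not at hcon
      apply hne
      rw [(Submodule.eq_bot_iff _).2 hcon, finrank_bot]
    have hxK : x ∉ K := fun h => hx0 (hdj x hx h)
    obtain ⟨j, hj⟩ : ∃ j, z j ∉ K := by
      by_contra hcon
      push Not at hcon
      apply hxK
      have h4 : V ≤ KQ K := by
        rw [hV, Submodule.span_le]
        rintro _ ⟨j, rfl⟩
        exact hcon j
      exact h4 (hV₁V hx)
    obtain ⟨v, hvT, hv⟩ := good_Tan (hK.good n z j hj)
    have h4 : Tan PE K (PhE z) = ⊥ := Submodule.finrank_eq_zero.1 h0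
    rw [h4, Submodule.mem_bot] at hvT
    rw [hvT] at hv
    exact zero_ne_one hv
  refine ⟨V₁, hV₁f, hV₁V, fun i => ?_, ?_, fun h0 j => ?_⟩
  · obtain ⟨a, ha, b, hb, h9⟩ := hdec (z i) (Submodule.subset_span ⟨i, rfl⟩)
    exact ⟨a, ha.2, b, hb, h9⟩
  · have hr2 := eRk_EV (IFd K) z
    rw [← hV] at hr2
    rw [← hr2]
    refine le_trans ?_ ((MK _).eRk_mono (EV_mono hV₁V))
    refine le_trans ?_ hch
    exact_mod_cast Nat.add_le_add_left hd1 _
  · obtain ⟨a, ha, b, hb, h9⟩ := hdec (z j) (Submodule.subset_span ⟨j, rfl⟩)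
    have h5 : V₁ = ⊥ := Submodule.finrank_eq_zero.1 (hd3 h0)
    rw [h5, Submodule.mem_bot] at hb
    rw [h9, hb, add_zero]
    exact ha.2

/-- the numbers on which a derivation is rational -/
theorem der_rat {D : Derivation ℚ ℂ ℂ} {S : Set ℂ} (hS : ∀ x ∈ S, ∃ q : ℚ, D x = q) {x : ℂ}
    (hx : x ∈ Submodule.span ℚ S) : ∃ q : ℚ, D x = q := by
  induction hx using Submodule.span_induction with
  | mem x hx => exact hS x hx
  | zero => exact ⟨0, by rw [map_zero]; simp⟩
  | add x y _ _ hx hy =>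
    obtain ⟨a, ha⟩ := hx
    obtain ⟨b, hb⟩ := hy
    exact ⟨a + b, by rw [map_add, ha, hb]; push_cast; rfl⟩
  | smul c x _ hx =>
    obtain ⟨a, ha⟩ := hx
    exact ⟨c * a, by rw [Derivation.map_smul, ha, Rat.smul_def]; push_cast; rfl⟩

/-- If no derivation has rational values on the tuple, not all zero, then the numbers are far from
being independent over the field. -/
theorem rank_lt {C : IntermediateField ℚ ℂ} {V₁ : Submodule ℚ ℂ} [FiniteDimensional ℚ V₁]
    {z : Fin n → ℂ} (hV : V₁ ≤ Submodule.span ℚ (range z))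
    (hz : ∀ i, ∃ a ∈ C, ∃ b ∈ V₁, z i = a + b) (hne : finrank ℚ V₁ ≠ 0)
    (hD : ∀ (D : Derivation ℚ ℂ ℂ) (q : Fin n → ℚ), (∀ i, D (z i) = q i) → q = 0) :
    (MK C).eRk (range z) + 1 ≤ (finrank ℚ V₁ : ℕ) := by
  classical
  obtain ⟨t, ht, hs⟩ := exists_tuple V₁
  obtain ⟨e, he⟩ : ∃ e, finrank ℚ V₁ = e + 1 := ⟨finrank ℚ V₁ - 1, by omega⟩
  revert t
  rw [he]
  intro t ht hs
  set S : Set ℂ := range fun i : Fin e => t i.succ with hS
  by_cases hv : t 0 ∈ clo C S
  · have h1 : range z ⊆ (MK C).closure S := by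
      rintro _ ⟨i, rfl⟩
      rw [← mem_clo_iff]
      obtain ⟨a, ha, b, hb, hab⟩ := hz i
      rw [hab]
      refine add_mem (base_clo ha) ?_
      have h2 : V₁ ≤ Subalgebra.toSubmodule (clo C S).toSubalgebra := by
        rw [← hs, Submodule.span_le]
        rintro _ ⟨j, rfl⟩
        refine Fin.cases ?_ (fun j => ?_) j
        · exact hv
        · exact subset_clo ⟨j, rfl⟩
      exact h2 hb
    have h2 := rk_le_of_subset_cl h1
    have h3 : (MK C).eRk S ≤ (e : ℕ) := by
      refine ((MK C).eRk_le_encard S).trans ?_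
      rw [hS, ← image_univ]
      refine (encard_image_le _ _).trans ?_
      rw [encard_univ]
      simp
    push_cast
    exact add_le_add (h2.trans h3) le_rfl
  · exfalso
    rw [mem_clo] at hv
    push Not at hv
    obtain ⟨D, hDC, hDS, hD0⟩ := hv
    set D' : Derivation ℚ ℂ ℂ := (D (t 0))⁻¹ • D with hD'
    have h0 : D' (t 0) = 1 := by
      rw [hD', Derivation.smul_apply, smul_eq_mul, inv_mul_cancel₀ hD0]
    have hrat : ∀ i, ∃ q : ℚ, D' (z i) = q := by
      intro i
      obtain ⟨a, ha, b, hb, hab⟩ := hz i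
      have h1 : D' a = 0 := by
        rw [hD', Derivation.smul_apply, hDC a ha, smul_zero]
      rw [hab, map_add, h1, zero_add]
      rw [← hs] at hb
      refine der_rat ?_ hb
      rintro _ ⟨j, rfl⟩
      refine Fin.cases ?_ (fun j => ?_) j
      · exact ⟨1, by rw [h0]; simp⟩
      · refine ⟨0, ?_⟩
        rw [hD', Derivation.smul_apply, hDS _ ⟨j, rfl⟩, smul_zero]
        simp
    choose q hq using hrat
    have h1 := hD D' q hq
    have h2 : ∀ x ∈ Submodule.span ℚ (range z), D' x = 0 := by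
      intro x hx
      induction hx using Submodule.span_induction with
      | mem x hx =>
        obtain ⟨i, rfl⟩ := hx
        rw [hq, h1]
        simp
      | zero => exact map_zero _
      | add x y _ _ hx hy => rw [map_add, hx, hy, add_zero]
      | smul c x _ hx => rw [Derivation.map_smul, hx, smul_zero]
    have h3 : t 0 ∈ V₁ := hs ▸ Submodule.subset_span ⟨0, rfl⟩
    rw [h2 _ (hV h3)] at h0
    exact zero_ne_one h0

/-- The four products. -/
def quad (x y : Fin 2 → ℂ) : Fin 4 → ℂ := ![x 0 * y 0, x 0 * y 1, x 1 * y 0, x 1 * y 1]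

theorem pair_ne {x : Fin 2 → ℂ} (hx : LinearIndependent ℚ x) {a b : ℚ} (h : a ≠ 0 ∨ b ≠ 0) :
    (a : ℂ) * x 0 + b * x 1 ≠ 0 := by
  intro h0
  rw [Fintype.linearIndependent_iff] at hx
  have h1 := hx ![a, b] (by
    rw [Fin.sum_univ_two]
    simp only [Matrix.cons_val_zero, Matrix.cons_val_one, Rat.smul_def]
    exact h0)
  have h2 := h1 0
  have h3 := h1 1
  simp only [Matrix.cons_val_zero, Matrix.cons_val_one] at h2 h3
  rcases h with h | h
  · exact h h2
  · exact h h3

/-- **No derivation has rational values on the four products, not all zero** -/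
theorem quad_der {x y : Fin 2 → ℂ} (hx : LinearIndependent ℚ x) (hy : LinearIndependent ℚ y)
    (D : Derivation ℚ ℂ ℂ) (q : Fin 4 → ℚ) (h : ∀ i, D (quad x y i) = q i) : q = 0 := by
  have h0 := h 0
  have h1 := h 1
  have h2 := h 2
  have h3 := h 3
  simp only [quad, Matrix.cons_val_zero, Matrix.cons_val_one, Matrix.cons_val] at h0 h1 h2 h3
  have hQ : ∀ r : ℚ, D (r : ℂ) = 0 := fun r => D.map_algebraMap r
  -- the first derivative of the determinant
  have e1 : (q 3 : ℂ) * (x 0 * y 0) + q 0 * (x 1 * y 1) =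
      q 2 * (x 0 * y 1) + q 1 * (x 1 * y 0) := by
    have h4 : D ((x 0 * y 0) * (x 1 * y 1)) = D ((x 0 * y 1) * (x 1 * y 0)) := by
      congr 1; ring
    rw [D.leibniz (x 0 * y 0) (x 1 * y 1), D.leibniz (x 0 * y 1) (x 1 * y 0), h0, h1, h2, h3] at h4
    simp only [smul_eq_mul] at h4
    linear_combination h4
  -- the second one
  have e2 : q 0 * q 3 = q 1 * q 2 := by
    have h4 := congrArg D e1
    simp only [map_add] at h4
    have h5 : ∀ (r : ℚ) (w : ℂ), D ((r : ℂ) * w) = r * D w := by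
      intro r w
      rw [Derivation.leibniz, hQ, smul_zero, add_zero, smul_eq_mul]
    rw [h5, h5, h5, h5, h0, h1, h2, h3] at h4
    have h6 : (q 0 : ℂ) * q 3 = q 1 * q 2 := by linear_combination h4 / 2
    exact_mod_cast h6
  have e2' : (q 0 : ℂ) * q 3 = q 1 * q 2 := by exact_mod_cast congrArg (Rat.cast (K := ℂ)) e2
  have hx0 : x 0 ≠ 0 := hx.ne_zero 0
  have hx1 : x 1 ≠ 0 := hx.ne_zero 1
  have hy0 : y 0 ≠ 0 := hy.ne_zero 0
  have hy1 : y 1 ≠ 0 := hy.ne_zero 1
  have z0 : q 0 = 0 := by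
    by_contra hne
    have h4 : ((q 0 : ℂ) * x 1 - q 2 * x 0) * ((q 0 : ℂ) * y 1 - q 1 * y 0) = 0 := by
      linear_combination (q 0 : ℂ) * e1 - (x 0 * y 0) * e2'
    rcases mul_eq_zero.1 h4 with h5 | h5
    · refine pair_ne hx (a := -q 2) (b := q 0) (Or.inr hne) ?_
      push_cast
      linear_combination h5
    · refine pair_ne hy (a := -q 1) (b := q 0) (Or.inr hne) ?_
      push_cast
      linear_combination h5
  have z3 : q 3 = 0 := by
    by_contra hne
    have h4 : ((q 3 : ℂ) * x 0 - q 1 * x 1) * ((q 3 : ℂ) * y 0 - q 2 * y 1) = 0 := by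
      linear_combination (q 3 : ℂ) * e1 - (x 1 * y 1) * e2'
    rcases mul_eq_zero.1 h4 with h5 | h5
    · refine pair_ne hx (a := q 3) (b := -q 1) (Or.inl hne) ?_
      push_cast
      linear_combination h5
    · refine pair_ne hy (a := q 3) (b := -q 2) (Or.inl hne) ?_
      push_cast
      linear_combination h5
  rw [z0, zero_mul] at e2
  rw [z0, z3] at e1
  simp only [Rat.cast_zero, zero_mul, add_zero] at e1
  have z12 : q 1 = 0 ∧ q 2 = 0 := by
    rcases mul_eq_zero.1 e2.symm with h4 | h4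
    · refine ⟨h4, ?_⟩
      rw [h4] at e1
      simp only [Rat.cast_zero, zero_mul, add_zero] at e1
      have h5 := e1.symm
      rcases mul_eq_zero.1 h5 with h6 | h6
      · exact_mod_cast h6
      · exact absurd h6 (mul_ne_zero hx0 hy1)
    · refine ⟨?_, h4⟩
      rw [h4] at e1
      simp only [Rat.cast_zero, zero_mul, zero_add] at e1
      have h5 := e1.symm
      rcases mul_eq_zero.1 h5 with h6 | h6
      · exact_mod_cast h6
      · exact absurd h6 (mul_ne_zero hx1 hy0)
  funext i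
  fin_cases i
  · exact z0
  · exact z12.1
  · exact z12.2
  · exact z3

/-- **The cost of moving four products** -/
theorem ClE.quad_cost {K : Subfield ℂ} (hK : ClE K) {L : PeriodPair} (hL2 : L.g₂ ∈ K)
    (hL3 : L.g₃ ∈ K) {x y : Fin 2 → ℂ} (hx : LinearIndependent ℚ x) (hy : LinearIndependent ℚ y)
    (hz : ∃ j, quad x y j ∉ K) :
    1 ≤ finrank ℂ (Tan PE K (PhE (quad x y))) ∧
    ((finrank ℂ (Tan PE K (PhE (quad x y))) + 1 : ℕ) : ℕ∞) ≤
      (MK (IFd K)).eRk (range fun i => Complex.exp (quad x y i)) ∧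
    (3 : ℕ∞) ≤ (MK (IFd K)).eRk (ET (quad x y)) := by
  classical
  set z := quad x y with hzdef
  obtain ⟨V₁, hf, hV, hdec, hr, h0⟩ := hK.cost hL2 hL3 z
  obtain ⟨j, hj⟩ := hz
  have hd : 1 ≤ finrank ℂ (Tan PE K (PhE z)) := by
    by_contra hcon
    exact hj (h0 (by omega) j)
  have hne : finrank ℚ V₁ ≠ 0 := by
    intro h1
    obtain ⟨a, ha, b, hb, hab⟩ := hdec j
    rw [Submodule.finrank_eq_zero.1 h1, Submodule.mem_bot] at hb
    apply hj
    rw [hab, hb, add_zero]
    exact ha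
  have h1 := rank_lt (C := IFd K) hV (fun i => hdec i) hne (fun D q h => quad_der hx hy D q h)
  have h2 : (1 : ℕ∞) ≤ (MK (IFd K)).eRk (range z) := by
    by_contra hcon
    have h3 : (MK (IFd K)).eRk (range z) = 0 := by
      rw [not_le, Order.lt_one_iff] at hcon
      exact hcon
    apply hj
    have h4 : z j ∈ clo (IFd K) (∅ : Set ℂ) := by
      rw [mem_clo_iff]
      have h5 : range z ⊆ (MK (IFd K)).closure ∅ := by
        rw [(MK (IFd K)).closure_empty]
        exact (MK (IFd K)).eRk_eq_zero_iff.1 h3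
      exact h5 ⟨j, rfl⟩
    exact hK.clo_le le_rfl (by simp) h4
  have h3 : (MK (IFd K)).eRk (ET z) ≤ (MK (IFd K)).eRk (range z) +
      (MK (IFd K)).eRk (range fun i => Complex.exp (z i)) :=
    (MK (IFd K)).eRk_union_le_eRk_add_eRk _ _
  have fin1 : (MK (IFd K)).eRk (range z) ≠ ⊤ := by
    rw [← lt_top_iff_ne_top]
    exact lt_of_le_of_lt ((MK _).eRk_le_encard _) (finite_range z).encard_lt_top
  have fin2 : (MK (IFd K)).eRk (range fun i => Complex.exp (z i)) ≠ ⊤ := by
    rw [← lt_top_iff_ne_top]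
    exact lt_of_le_of_lt ((MK _).eRk_le_encard _) (finite_range _).encard_lt_top
  have fin3 : (MK (IFd K)).eRk (ET z) ≠ ⊤ := by
    rw [← lt_top_iff_ne_top]
    exact lt_of_le_of_lt ((MK _).eRk_le_encard _) (ET_finite z).encard_lt_top
  obtain ⟨r, hr'⟩ := ENat.ne_top_iff_exists.1 fin1
  obtain ⟨c, hc'⟩ := ENat.ne_top_iff_exists.1 fin2
  obtain ⟨w, hw'⟩ := ENat.ne_top_iff_exists.1 fin3
  rw [← hr'] at h1 h2 h3
  rw [← hc'] at h3 ⊢
  rw [← hw'] at h3 hr ⊢
  have k1 : r + 1 ≤ finrank ℚ V₁ := by exact_mod_cast h1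
  have k2 : 1 ≤ r := by exact_mod_cast h2
  have k3 : w ≤ r + c := by exact_mod_cast h3
  have k4 : finrank ℚ V₁ + finrank ℂ (Tan PE K (PhE z)) ≤ w := by exact_mod_cast hr
  refine ⟨hd, ?_, ?_⟩
  · exact_mod_cast (by omega : finrank ℂ (Tan PE K (PhE z)) + 1 ≤ c)
  · exact_mod_cast (by omega : 3 ≤ w)

end Pool.Agent.H445
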