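import Pool.Agent.H445.FE.A
import Pool.Agent.H445.DimM

/-!
# Four exponentials: families of products with few transcendental exponentials
-/

set_option autoImplicit false

open Set Module MeasureTheory
open Pool.Agent.TH813.Rel (DF MK subset_cl rk_le_of_subset_cl cl_of_base exists_derF mem_cl)
open Pool.Agent.Y685
open scoped NNReal ENNReal

noncomputable section

namespace Pool.Agent.H445

/-- Logarithms of distinct primes are linearly independent over `ℚ`. -/
theorem log_primes {ι : Type*} [Fintype ι] (P : ι → ℕ) (hP : ∀ i, (P i).Prime)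
    (hinj : Function.Injective P) : LinearIndependent ℚ (fun i => (Real.log (P i) : ℂ)) := by
  classical
  rw [← LinearIndependent.iff_fractionRing ℤ ℚ, Fintype.linearIndependent_iff]
  intro c hc j
  have h1 : ∑ i, (c i : ℝ) * Real.log (P i) = 0 := by
    have h2 : ((∑ i, (c i : ℝ) * Real.log (P i) : ℝ) : ℂ) = 0 := by
      rw [← hc]
      push_cast
      apply Finset.sum_congr rfl
      intro i _
      rw [zsmul_eq_mul]
    exact_mod_cast h2
  have h3 : ∑ i, (((c i).toNat : ℕ) : ℝ) * Real.log (P i) =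
      ∑ i, (((-c i).toNat : ℕ) : ℝ) * Real.log (P i) := by
    rw [← sub_eq_zero, ← Finset.sum_sub_distrib, ← h1]
    apply Finset.sum_congr rfl
    intro i _
    rw [← sub_mul]
    congr 1
    have : ((c i).toNat : ℤ) - ((-c i).toNat : ℤ) = c i := by omega
    exact_mod_cast this
  have hpos : ∀ i, (0 : ℝ) < P i := fun i => by exact_mod_cast (hP i).pos
  have h4 : ∀ e : ι → ℕ, ∑ i, (e i : ℝ) * Real.log (P i) =
      Real.log ((∏ i, P i ^ e i : ℕ) : ℝ) := by
    intro e
    push_cast
    rw [Real.log_prod (fun i _ => (pow_pos (hpos i) _).ne')]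
    apply Finset.sum_congr rfl
    intro i _
    rw [Real.log_pow]
  rw [h4, h4] at h3
  have hpp : ∀ e : ι → ℕ, 0 < ∏ i, P i ^ e i := fun e =>
    Finset.prod_pos (fun i _ => pow_pos (hP i).pos _)
  have h5 : ∏ i, P i ^ (c i).toNat = ∏ i, P i ^ (-c i).toNat := by
    have := Real.log_injOn_pos (Set.mem_Ioi.2 (by exact_mod_cast hpp _))
      (Set.mem_Ioi.2 (by exact_mod_cast hpp _)) h3
    exact_mod_cast this
  have h6 : ∀ e : ι → ℕ, (∏ i, P i ^ e i).factorization (P j) = e j := by
    intro e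
    rw [Nat.factorization_prod (fun i _ => (pow_pos (hP i).pos _).ne')]
    rw [Finsupp.finsetSum_apply, Finset.sum_eq_single j]
    · rw [(hP j).factorization_pow]; simp
    · intro i _ hij
      rw [(hP i).factorization_pow, Finsupp.single_apply, if_neg]
      exact fun h => hij (hinj h)
    · intro h; exact absurd (Finset.mem_univ _) h
  have h7 := congrArg (fun n => n.factorization (P j)) h5
  simp only [h6] at h7
  omega

/-- logarithms of algebraic numbers -/
theorem exists_logs (s : ℕ) : ∃ c : Fin s → ℝ, LinearIndependent ℚ (fun i => (c i : ℂ)) ∧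
    ∀ i, IsAlgebraic ℚ (Complex.exp (c i : ℂ)) := by
  refine ⟨fun i => Real.log (Nat.nth Nat.Prime i : ℕ), ?_, fun i => ?_⟩
  · exact log_primes (fun i : Fin s => Nat.nth Nat.Prime i)
      (fun i => Nat.prime_nth_prime i)
      (fun i j h => Fin.ext (Nat.nth_injective Nat.infinite_setOfPred_prime h))
  · have h0 : (0 : ℝ) < (Nat.nth Nat.Prime i : ℕ) := by
      exact_mod_cast (Nat.prime_nth_prime i).pos
    have h1 : Complex.exp (Real.log (Nat.nth Nat.Prime i : ℕ) : ℂ) =
        ((Nat.nth Nat.Prime i : ℕ) : ℂ) := by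
      rw [← Complex.ofReal_exp, Real.exp_log h0]
      norm_cast
    rw [h1]
    exact isAlgebraic_algebraMap ((Nat.nth Nat.Prime i : ℕ) : ℚ)

/-- some of the coordinates -/
theorem hm_proj' {𝕜 : Type} [RCLike 𝕜] [MeasurableSpace 𝕜] [BorelSpace 𝕜]
    {d N D : ℕ} (g : Fin d → Fin N) {S : Set (Fin d → 𝕜)}
    {F : Set (Fin N → 𝕜)} (h : ∀ x ∈ S, ∃ z ∈ F, ∀ j, z (g j) = x j)
    (hS : 0 < μH[(D : ℝ)] S) : 0 < μH[(D : ℝ)] F := by
  let π : (Fin N → 𝕜) →L[𝕜] (Fin d → 𝕜) :=
    ContinuousLinearMap.pi fun j => ContinuousLinearMap.proj (g j)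
  have h1 : S ⊆ π '' F := by
    intro x hx
    obtain ⟨z, hz, hzx⟩ := h x hx
    exact ⟨z, hz, funext hzx⟩
  have h2 : μH[(D : ℝ)] (π '' F) ≤ (‖π‖₊ : ℝ≥0∞) ^ (D : ℝ) * μH[(D : ℝ)] F :=
    π.lipschitz.lipschitzOnWith.hausdorffMeasure_image_le (Nat.cast_nonneg D)
  rw [pos_iff_ne_zero]
  intro h0
  rw [h0, mul_zero] at h2
  exact absurd (lt_of_lt_of_le hS ((measure_mono h1).trans h2)) (by simp)

end Pool.Agent.H445
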