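import Pool.Agent.H445.FE.A

/-!
# Rows of products and one derivation
-/

set_option autoImplicit false

open Set Module

noncomputable section

namespace Pool.Agent.H445

/-- a rational matrix on the quadric which is orthogonal to the matrix of the products -/
theorem nlem {x y : Fin 2 → ℂ} (hx : LinearIndependent ℚ x) (hy : LinearIndependent ℚ y)
    (q : Fin 4 → ℚ) (e1 : (q 3 : ℂ) * (x 0 * y 0) + q 0 * (x 1 * y 1) =
      q 2 * (x 0 * y 1) + q 1 * (x 1 * y 0)) (e2 : q 0 * q 3 = q 1 * q 2) : q = 0 := by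
  have e2' : (q 0 : ℂ) * q 3 = q 1 * q 2 := by exact_mod_cast congrArg (Rat.cast (K := ℂ)) e2
  have hx0 : x 0 ≠ 0 := hx.ne_zero 0
  have hx1 : x 1 ≠ 0 := hx.ne_zero 1
  have hy0 : y 0 ≠ 0 := hy.ne_zero 0
  have hy1 : y 1 ≠ 0 := hy.ne_zero 1
  have z0 : q 0 = 0 := by
    by_contra hne
    have h4 : ((q 0 : ℂ) * x 1 - q 2 * x 0) * ((q 0 : ℂ) * y 1 - q 1 * y 0) = 0 := by
      linear_combination (q 0 : ℂ) * e1 - (x 0 * y 0) * e2'
    rcases mul_eq_zero.1 h4 with h5 | h5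
    · refine pair_ne hx (a := -q 2) (b := q 0) (Or.inr hne) ?_
      push_cast
      linear_combination h5
    · refine pair_ne hy (a := -q 1) (b := q 0) (Or.inr hne) ?_
      push_cast
      linear_combination h5
  have z3 : q 3 = 0 := by
    by_contra hne
    have h4 : ((q 3 : ℂ) * x 0 - q 1 * x 1) * ((q 3 : ℂ) * y 0 - q 2 * y 1) = 0 := by
      linear_combination (q 3 : ℂ) * e1 - (x 1 * y 1) * e2'
    rcases mul_eq_zero.1 h4 with h5 | h5
    · refine pair_ne hx (a := q 3) (b := -q 1) (Or.inl hne) ?_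
      push_cast
      linear_combination h5
    · refine pair_ne hy (a := q 3) (b := -q 2) (Or.inl hne) ?_
      push_cast
      linear_combination h5
  rw [z0, zero_mul] at e2
  rw [z0, z3] at e1
  simp only [Rat.cast_zero, zero_mul, add_zero] at e1
  have z12 : q 1 = 0 ∧ q 2 = 0 := by
    rcases mul_eq_zero.1 e2.symm with h4 | h4
    · refine ⟨h4, ?_⟩
      rw [h4] at e1
      simp only [Rat.cast_zero, zero_mul, add_zero] at e1
      have h5 := e1.symm
      rcases mul_eq_zero.1 h5 with h6 | h6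
      · exact_mod_cast h6
      · exact absurd h6 (mul_ne_zero hx0 hy1)
    · refine ⟨?_, h4⟩
      rw [h4] at e1
      simp only [Rat.cast_zero, zero_mul, zero_add] at e1
      have h5 := e1.symm
      rcases mul_eq_zero.1 h5 with h6 | h6
      · exact_mod_cast h6
      · exact absurd h6 (mul_ne_zero hx1 hy0)
  funext i
  fin_cases i
  · exact z0
  · exact z12.1
  · exact z12.2
  · exact z3

/-- if a number is moved then it satisfies no rational quadratic equation -/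
theorem quad_indep {D : Derivation ℚ ℂ ℂ} {s : ℂ} (hs : D s ≠ 0) {a b c : ℚ}
    (h : (a : ℂ) + b * s + c * s ^ 2 = 0) : a = 0 ∧ b = 0 ∧ c = 0 := by
  have hQ : ∀ r : ℚ, D (r : ℂ) = 0 := fun r => D.map_algebraMap r
  have h5 : ∀ (r : ℚ) (w : ℂ), D ((r : ℂ) * w) = r * D w := by
    intro r w
    rw [Derivation.leibniz, hQ, smul_zero, add_zero, smul_eq_mul]
  have h1 := congrArg D h
  rw [map_add, map_add, hQ, h5, h5, sq, D.leibniz, map_zero] at h1
  simp only [smul_eq_mul] at h1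
  have h2 : (b : ℂ) + 2 * c * s = 0 := by
    have : D s * ((b : ℂ) + 2 * c * s) = 0 := by linear_combination h1
    exact (mul_eq_zero.1 this).resolve_left hs
  have h3 := congrArg D h2
  have h3' : ((2 : ℂ) * c * s) = ((2 * c : ℚ) : ℂ) * s := by push_cast; ring
  rw [map_add, hQ, h3', h5, map_zero, zero_add] at h3
  have h4 : ((2 * c : ℚ) : ℂ) = 0 := (mul_eq_zero.1 h3).resolve_right hs
  have h6 : c = 0 := by
    have : (2 * c : ℚ) = 0 := by exact_mod_cast h4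
    linarith
  rw [h6] at h2 h
  have h7 : b = 0 := by
    have : (b : ℂ) = 0 := by push_cast at h2; linear_combination h2
    exact_mod_cast this
  rw [h7] at h
  refine ⟨?_, h7, h6⟩
  have : (a : ℂ) = 0 := by
    push_cast at h
    linear_combination h
  exact_mod_cast this

/-- the values of a derivation on a row of products -/
def Row (D : Derivation ℚ ℂ ℂ) (s : ℂ) (y : Fin 2 → ℂ) (x : ℂ) (q r : Fin 2 → ℚ) : Prop :=
  ∀ j, D (x * y j) = q j + s * r j

theorem der_rat_mul (D : Derivation ℚ ℂ ℂ) (r : ℚ) (w : ℂ) : D ((r : ℂ) * w) = r * D w := by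
  rw [Derivation.leibniz, show D (r : ℂ) = 0 from D.map_algebraMap r, smul_zero, add_zero,
    smul_eq_mul]

theorem Row.sub {D : Derivation ℚ ℂ ℂ} {s : ℂ} {y : Fin 2 → ℂ} {x x' : ℂ} {q r q' r' : Fin 2 → ℚ}
    (h : Row D s y x q r) (h' : Row D s y x' q' r') (c : ℚ) :
    Row D s y (x' - c * x) (fun j => q' j - c * q j) (fun j => r' j - c * r j) := by
  intro j
  have h1 : (x' - c * x) * y j = x' * y j - (c : ℂ) * (x * y j) := by ring
  rw [h1, map_sub, der_rat_mul, h j, h' j]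
  push_cast
  ring

/-- **The three derivatives of the determinant** -/
theorem Row.pair {D : Derivation ℚ ℂ ℂ} {s : ℂ} {y : Fin 2 → ℂ} {x x' : ℂ} {q r q' r' : Fin 2 → ℚ}
    (h : Row D s y x q r) (h' : Row D s y x' q' r') :
    ((q 0 : ℂ) * (x' * y 1) + q' 1 * (x * y 0) - q 1 * (x' * y 0) - q' 0 * (x * y 1)) +
      s * ((r 0 : ℂ) * (x' * y 1) + r' 1 * (x * y 0) - r 1 * (x' * y 0) - r' 0 * (x * y 1)) = 0 ∧
    2 * (((q 0 * q' 1 - q 1 * q' 0 : ℚ) : ℂ) +
        ((q 0 * r' 1 + r 0 * q' 1 - q 1 * r' 0 - r 1 * q' 0 : ℚ) : ℂ) * s +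
        ((r 0 * r' 1 - r 1 * r' 0 : ℚ) : ℂ) * s ^ 2) +
      D s * ((r 0 : ℂ) * (x' * y 1) + r' 1 * (x * y 0) - r 1 * (x' * y 0) - r' 0 * (x * y 1)) = 0 ∧
    3 * D s * (((q 0 * r' 1 + r 0 * q' 1 - q 1 * r' 0 - r 1 * q' 0 : ℚ) : ℂ) +
        2 * ((r 0 * r' 1 - r 1 * r' 0 : ℚ) : ℂ) * s) +
      D (D s) * ((r 0 : ℂ) * (x' * y 1) + r' 1 * (x * y 0) - r 1 * (x' * y 0) -
        r' 0 * (x * y 1)) = 0 := by
  have h0 := h 0
  have h1 := h 1
  have h0' := h' 0
  have h1' := h' 1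
  set m0 := x * y 0 with hm0
  set m1 := x * y 1 with hm1
  set n0 := x' * y 0 with hn0
  set n1 := x' * y 1 with hn1
  have e0 : m0 * n1 = m1 * n0 := by rw [hm0, hm1, hn0, hn1]; ring
  have hQ : ∀ r : ℚ, D (r : ℂ) = 0 := fun r => D.map_algebraMap r
  -- first
  have e1 : ((q 0 : ℂ) * n1 + q' 1 * m0 - q 1 * n0 - q' 0 * m1) +
      s * ((r 0 : ℂ) * n1 + r' 1 * m0 - r 1 * n0 - r' 0 * m1) = 0 := by
    have h4 := congrArg D e0
    rw [D.leibniz m0 n1, D.leibniz m1 n0, h0, h1, h0', h1'] at h4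
    simp only [smul_eq_mul] at h4
    linear_combination h4
  -- the derivatives of the two brackets
  have hH : D ((q 0 : ℂ) * n1 + q' 1 * m0 - q 1 * n0 - q' 0 * m1) =
      (q 0 : ℂ) * (q' 1 + s * r' 1) + q' 1 * (q 0 + s * r 0) - q 1 * (q' 0 + s * r' 0) -
        q' 0 * (q 1 + s * r 1) := by
    rw [map_sub, map_sub, map_add, der_rat_mul, der_rat_mul, der_rat_mul, der_rat_mul, h0, h1, h0',
      h1']
  have hG : D ((r 0 : ℂ) * n1 + r' 1 * m0 - r 1 * n0 - r' 0 * m1) =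
      (r 0 : ℂ) * (q' 1 + s * r' 1) + r' 1 * (q 0 + s * r 0) - r 1 * (q' 0 + s * r' 0) -
        r' 0 * (q 1 + s * r 1) := by
    rw [map_sub, map_sub, map_add, der_rat_mul, der_rat_mul, der_rat_mul, der_rat_mul, h0, h1, h0',
      h1']
  set G := (r 0 : ℂ) * n1 + r' 1 * m0 - r 1 * n0 - r' 0 * m1 with hGdef
  set H := (q 0 : ℂ) * n1 + q' 1 * m0 - q 1 * n0 - q' 0 * m1 with hHdef
  have e2 : 2 * (((q 0 * q' 1 - q 1 * q' 0 : ℚ) : ℂ) +
        ((q 0 * r' 1 + r 0 * q' 1 - q 1 * r' 0 - r 1 * q' 0 : ℚ) : ℂ) * s +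
        ((r 0 * r' 1 - r 1 * r' 0 : ℚ) : ℂ) * s ^ 2) + D s * G = 0 := by
    have h4 := congrArg D e1
    rw [map_add, D.leibniz, hH, hG, map_zero] at h4
    simp only [smul_eq_mul] at h4
    push_cast
    linear_combination h4
  refine ⟨e1, e2, ?_⟩
  have h4 := congrArg D e2
  have h5 : (2 : ℂ) * (((q 0 * q' 1 - q 1 * q' 0 : ℚ) : ℂ) +
        ((q 0 * r' 1 + r 0 * q' 1 - q 1 * r' 0 - r 1 * q' 0 : ℚ) : ℂ) * s +
        ((r 0 * r' 1 - r 1 * r' 0 : ℚ) : ℂ) * s ^ 2) =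
      ((2 : ℚ) : ℂ) * (((q 0 * q' 1 - q 1 * q' 0 : ℚ) : ℂ) +
        ((q 0 * r' 1 + r 0 * q' 1 - q 1 * r' 0 - r 1 * q' 0 : ℚ) : ℂ) * s +
        ((r 0 * r' 1 - r 1 * r' 0 : ℚ) : ℂ) * s ^ 2) := by push_cast; ring
  rw [h5, map_add, der_rat_mul, map_add, map_add, hQ, der_rat_mul, der_rat_mul, sq, D.leibniz s s,
    D.leibniz (D s) G, hG, map_zero] at h4
  simp only [smul_eq_mul] at h4
  push_cast at h4 ⊢
  linear_combination h4

/-- two rows -/
theorem Row.zero {D : Derivation ℚ ℂ ℂ} {s : ℂ} (hs : D s ≠ 0) {y : Fin 2 → ℂ}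
    (hy : LinearIndependent ℚ y) {x x' : ℂ} (hx : LinearIndependent ℚ ![x, x'])
    {q r q' r' : Fin 2 → ℚ} (h : Row D s y x q r) (h' : Row D s y x' q' r')
    (ha : q 0 * q' 1 - q 1 * q' 0 = 0)
    (hb : q 0 * r' 1 + r 0 * q' 1 - q 1 * r' 0 - r 1 * q' 0 = 0)
    (hc : r 0 * r' 1 - r 1 * r' 0 = 0) : (q = 0 ∧ r = 0) ∧ (q' = 0 ∧ r' = 0) := by
  obtain ⟨e1, e2, -⟩ := h.pair h'
  rw [ha, hb, hc] at e2
  have hG : (r 0 : ℂ) * (x' * y 1) + r' 1 * (x * y 0) - r 1 * (x' * y 0) -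
      r' 0 * (x * y 1) = 0 := by
    have h1 : D s * ((r 0 : ℂ) * (x' * y 1) + r' 1 * (x * y 0) - r 1 * (x' * y 0) -
      r' 0 * (x * y 1)) = 0 := by
      push_cast at e2
      linear_combination e2
    exact (mul_eq_zero.1 h1).resolve_left hs
  rw [hG] at e1
  have k1 := nlem hx hy ![r 0, r 1, r' 0, r' 1] (by
    simp only [Matrix.cons_val_zero, Matrix.cons_val_one, Matrix.cons_val]
    linear_combination hG) (by
    simp only [Matrix.cons_val_zero, Matrix.cons_val_one, Matrix.cons_val]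
    linear_combination hc)
  have k2 := nlem hx hy ![q 0, q 1, q' 0, q' 1] (by
    simp only [Matrix.cons_val_zero, Matrix.cons_val_one, Matrix.cons_val]
    linear_combination e1) (by
    simp only [Matrix.cons_val_zero, Matrix.cons_val_one, Matrix.cons_val]
    linear_combination ha)
  have r0 : r 0 = 0 := congrFun k1 0
  have r1 : r 1 = 0 := congrFun k1 1
  have r2 : r' 0 = 0 := congrFun k1 2
  have r3 : r' 1 = 0 := congrFun k1 3
  have q0 : q 0 = 0 := congrFun k2 0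
  have q1 : q 1 = 0 := congrFun k2 1
  have q2 : q' 0 = 0 := congrFun k2 2
  have q3 : q' 1 = 0 := congrFun k2 3
  refine ⟨⟨?_, ?_⟩, ?_, ?_⟩ <;> funext j <;> fin_cases j <;> assumption

/-- the invariants of two pairs of rows are parallel -/
theorem Row.parallel {D : Derivation ℚ ℂ ℂ} {s : ℂ} (hs : D s ≠ 0) {G G' : ℂ}
    {a b c a' b' c' : ℚ}
    (h2 : 2 * ((a : ℂ) + b * s + c * s ^ 2) + D s * G = 0)
    (h3 : 3 * D s * ((b : ℂ) + 2 * c * s) + D (D s) * G = 0)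
    (h2' : 2 * ((a' : ℂ) + b' * s + c' * s ^ 2) + D s * G' = 0)
    (h3' : 3 * D s * ((b' : ℂ) + 2 * c' * s) + D (D s) * G' = 0) :
    a * b' = b * a' ∧ a * c' = c * a' ∧ b * c' = c * b' := by
  have h4 : ((a * b' - b * a' : ℚ) : ℂ) + ((2 * (a * c' - c * a') : ℚ) : ℂ) * s +
      ((b * c' - c * b' : ℚ) : ℂ) * s ^ 2 = 0 := by
    -- the Wronskian
    have h5 : D s * (6 * D s * (((a : ℂ) + b * s + c * s ^ 2) * ((b' : ℂ) + 2 * c' * s) -
        ((a' : ℂ) + b' * s + c' * s ^ 2) * ((b : ℂ) + 2 * c * s))) = 0 := by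
      linear_combination (D s) * (2 * ((a : ℂ) + b * s + c * s ^ 2)) * h3' -
        (D s) * (2 * ((a' : ℂ) + b' * s + c' * s ^ 2)) * h3 -
        (D s) * (D (D s)) * G' * h2 + (D s) * (D (D s)) * G * h2'
    have h6 : ((a : ℂ) + b * s + c * s ^ 2) * ((b' : ℂ) + 2 * c' * s) -
        ((a' : ℂ) + b' * s + c' * s ^ 2) * ((b : ℂ) + 2 * c * s) = 0 := by
      have h7 := (mul_eq_zero.1 h5).resolve_left hs
      exact (mul_eq_zero.1 h7).resolve_left (mul_ne_zero (by norm_num) hs)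
    push_cast
    linear_combination h6
  obtain ⟨k1, k2, k3⟩ := quad_indep hs h4
  exact ⟨by linarith, by linarith, by linarith⟩

end Pool.Agent.H445
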