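import Pool.Agent.H445.FE.D

/-!
# Three rows of products and one derivation
-/

set_option autoImplicit false

open Set Module

noncomputable section

namespace Pool.Agent.H445

theorem three_ne {x : Fin 3 → ℂ} (hx : LinearIndependent ℚ x) (u : Fin 3 → ℚ)
    (h : (u 0 : ℂ) * x 0 + u 1 * x 1 + u 2 * x 2 = 0) : u = 0 := by
  rw [Fintype.linearIndependent_iff] at hx
  funext i
  refine hx u ?_ i
  rw [Fin.sum_univ_three]
  simp only [Rat.smul_def]
  exact h

theorem li_pair {a b : ℂ} (h : ∀ u v : ℚ, (u : ℂ) * a + v * b = 0 → u = 0 ∧ v = 0) :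
    LinearIndependent ℚ ![a, b] := by
  rw [LinearIndependent.pair_iff]
  intro u v huv
  apply h
  simpa only [Rat.smul_def] using huv

/-- **three rows, one moved parameter** -/
theorem Row.core {D : Derivation ℚ ℂ ℂ} {s : ℂ} (hs : D s ≠ 0) {y : Fin 2 → ℂ}
    (hy : LinearIndependent ℚ y) {x₀ x₁ x₂ : ℂ}
    (hx : ∀ u v w : ℚ, (u : ℂ) * x₀ + v * x₁ + w * x₂ = 0 → u = 0 ∧ v = 0 ∧ w = 0)
    {q₀ r₀ q₁ r₁ q₂ r₂ : Fin 2 → ℚ} (h₀ : Row D s y x₀ q₀ r₀) (h₁ : Row D s y x₁ q₁ r₁)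
    (h₂ : Row D s y x₂ q₂ r₂) :
    q₀ 0 * q₁ 1 - q₀ 1 * q₁ 0 = 0 ∧
    q₀ 0 * r₁ 1 + r₀ 0 * q₁ 1 - q₀ 1 * r₁ 0 - r₀ 1 * q₁ 0 = 0 ∧
    r₀ 0 * r₁ 1 - r₀ 1 * r₁ 0 = 0 := by
  obtain ⟨-, e2, e3⟩ := h₀.pair h₁
  obtain ⟨-, f2, f3⟩ := h₀.pair h₂
  obtain ⟨g1, g2, g3⟩ := Row.parallel hs e2 e3 f2 f3
  set a := q₀ 0 * q₁ 1 - q₀ 1 * q₁ 0 with ha
  set b := q₀ 0 * r₁ 1 + r₀ 0 * q₁ 1 - q₀ 1 * r₁ 0 - r₀ 1 * q₁ 0 with hb
  set c := r₀ 0 * r₁ 1 - r₀ 1 * r₁ 0 with hc
  set a' := q₀ 0 * q₂ 1 - q₀ 1 * q₂ 0 with ha'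
  set b' := q₀ 0 * r₂ 1 + r₀ 0 * q₂ 1 - q₀ 1 * r₂ 0 - r₀ 1 * q₂ 0 with hb'
  set c' := r₀ 0 * r₂ 1 - r₀ 1 * r₂ 0 with hc'
  by_contra hcon
  -- the factor
  obtain ⟨t, ht1, ht2, ht3⟩ : ∃ t : ℚ, a' = t * a ∧ b' = t * b ∧ c' = t * c := by
    by_cases h1 : a = 0
    · by_cases h2 : b = 0
      · by_cases h3 : c = 0
        · exact absurd ⟨h1, h2, h3⟩ hcon
        · refine ⟨c' / c, ?_, ?_, ?_⟩
          · field_simp
            rw [h1] at g2 ⊢
            linarith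
          · field_simp
            rw [h2] at g3 ⊢
            linarith
          · field_simp
      · refine ⟨b' / b, ?_, ?_, ?_⟩
        · field_simp
          linarith
        · field_simp
        · field_simp
          linarith
    · refine ⟨a' / a, ?_, ?_, ?_⟩
      · field_simp
      · field_simp
        linarith
      · field_simp
        linarith
  have h3 := h₁.sub h₂ t
  have hli : LinearIndependent ℚ ![x₀, x₂ - t * x₁] := by
    apply li_pair
    intro u v huv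
    have := hx u (-(v * t)) v (by push_cast; linear_combination huv)
    exact ⟨this.1, this.2.2⟩
  obtain ⟨⟨k1, k2⟩, -⟩ := Row.zero hs hy hli h₀ h3 (by
    change q₀ 0 * (q₂ 1 - t * q₁ 1) - q₀ 1 * (q₂ 0 - t * q₁ 0) = 0
    linear_combination ht1) (by
    change q₀ 0 * (r₂ 1 - t * r₁ 1) + r₀ 0 * (q₂ 1 - t * q₁ 1) - q₀ 1 * (r₂ 0 - t * r₁ 0) -
      r₀ 1 * (q₂ 0 - t * q₁ 0) = 0
    linear_combination ht2) (by
    change r₀ 0 * (r₂ 1 - t * r₁ 1) - r₀ 1 * (r₂ 0 - t * r₁ 0) = 0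
    linear_combination ht3)
  apply hcon
  rw [k1] at ha hb
  rw [k2] at hb hc
  simp only [Pi.zero_apply, zero_mul, sub_zero, add_zero] at ha hb hc
  exact ⟨ha, hb, hc⟩

/-- **no parameter is moved** -/
theorem Row.three_zero {D : Derivation ℚ ℂ ℂ} {s : ℂ} (hs : D s ≠ 0) {y : Fin 2 → ℂ}
    (hy : LinearIndependent ℚ y) {x : Fin 3 → ℂ} (hx : LinearIndependent ℚ x)
    {q r : Fin 3 → Fin 2 → ℚ} (h : ∀ i, Row D s y (x i) (q i) (r i)) :
    ∀ i, q i = 0 ∧ r i = 0 := by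
  have hx' := three_ne hx
  obtain ⟨a1, a2, a3⟩ := Row.core hs hy (x₀ := x 0) (x₁ := x 1) (x₂ := x 2) (fun u v w huvw => by
    have := hx' ![u, v, w] huvw
    exact ⟨congrFun this 0, congrFun this 1, congrFun this 2⟩) (h 0) (h 1) (h 2)
  obtain ⟨b1, b2, b3⟩ := Row.core hs hy (x₀ := x 0) (x₁ := x 2) (x₂ := x 1) (fun u v w huvw => by
    have := hx' ![u, w, v] (by
      change (u : ℂ) * x 0 + w * x 1 + v * x 2 = 0
      linear_combination huvw)
    exact ⟨congrFun this 0, congrFun this 2, congrFun this 1⟩) (h 0) (h 2) (h 1)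
  have l1 : LinearIndependent ℚ ![x 0, x 1] := li_pair fun u v huv => by
    have := hx' ![u, v, 0] (by
      change (u : ℂ) * x 0 + v * x 1 + ((0 : ℚ) : ℂ) * x 2 = 0
      push_cast
      linear_combination huv)
    exact ⟨congrFun this 0, congrFun this 1⟩
  have l2 : LinearIndependent ℚ ![x 0, x 2] := li_pair fun u v huv => by
    have := hx' ![u, 0, v] (by
      change (u : ℂ) * x 0 + ((0 : ℚ) : ℂ) * x 1 + v * x 2 = 0
      push_cast
      linear_combination huv)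
    exact ⟨congrFun this 0, congrFun this 2⟩
  obtain ⟨c1, c2⟩ := Row.zero hs hy l1 (h 0) (h 1) a1 a2 a3
  obtain ⟨-, c3⟩ := Row.zero hs hy l2 (h 0) (h 2) b1 b2 b3
  intro i
  fin_cases i
  · exact c1
  · exact c2
  · exact c3

/-- a rational relation between three vectors of the plane -/
theorem plane_rel (a b : Fin 3 → ℚ) : ∃ u : Fin 3 → ℚ, u ≠ 0 ∧
    u 0 * a 0 + u 1 * a 1 + u 2 * a 2 = 0 ∧ u 0 * b 0 + u 1 * b 1 + u 2 * b 2 = 0 := by
  have h1 : ¬ LinearIndependent ℚ (fun l => (![a l, b l] : Fin 2 → ℚ)) := by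
    intro h
    have := h.fintype_card_le_finrank
    simp at this
  rw [Fintype.not_linearIndependent_iff] at h1
  obtain ⟨u, hu, i, hi⟩ := h1
  rw [Fin.sum_univ_three] at hu
  have k0 := congrFun hu 0
  have k1 := congrFun hu 1
  simp at k0 k1
  exact ⟨u, fun h => hi (congrFun h i), k0, k1⟩

/-- **three rows, one constant parameter** -/
theorem Row.const {D : Derivation ℚ ℂ ℂ} {s : ℂ} (hs : D s = 0) {y : Fin 2 → ℂ}
    (hy : LinearIndependent ℚ y) {x : Fin 3 → ℂ} (hx : LinearIndependent ℚ x)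
    {q r : Fin 3 → Fin 2 → ℚ} (h : ∀ i, Row D s y (x i) (q i) (r i))
    (hne : ∃ i j, (q i j : ℂ) + s * r i j ≠ 0) :
    (∃ A B : ℚ, y 1 ^ 2 = A * (y 0 * y 1) + B * y 0 ^ 2) ∨
    ∃ (i : Fin 3) (c : Fin 3 → ℚ), c i = 1 ∧
      ∀ l j, (q l j : ℂ) + s * r l j = c l * ((q i j : ℂ) + s * r i j) := by
  have hx' := three_ne hx
  have hy0 : y 0 ≠ 0 := hy.ne_zero 0
  have hw : ∀ i, ((q i 0 : ℂ) + s * r i 0) * y 1 = ((q i 1 : ℂ) + s * r i 1) * y 0 := by
    intro i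
    by_contra hcon
    have h1 : ∀ l, x l * (((q i 0 : ℂ) + s * r i 0) * y 1 - ((q i 1 : ℂ) + s * r i 1) * y 0) =
        x i * (((q l 0 : ℂ) + s * r l 0) * y 1 - ((q l 1 : ℂ) + s * r l 1) * y 0) := by
      intro l
      obtain ⟨e1, -, -⟩ := (h i).pair (h l)
      linear_combination e1
    have h2 : ∀ l, ((q i 0 : ℂ) + s * r i 0) * ((q l 1 : ℂ) + s * r l 1) =
        ((q i 1 : ℂ) + s * r i 1) * ((q l 0 : ℂ) + s * r l 0) := by
      intro l
      obtain ⟨-, e2, -⟩ := (h i).pair (h l)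
      rw [hs, zero_mul, add_zero] at e2
      push_cast at e2
      linear_combination e2 / 2
    set W := ((q i 0 : ℂ) + s * r i 0) * y 1 - ((q i 1 : ℂ) + s * r i 1) * y 0 with hW
    have hW0 : W ≠ 0 := sub_ne_zero.2 hcon
    have h3 : ∀ l j, x l * ((q i j : ℂ) + s * r i j) = x i * ((q l j : ℂ) + s * r l j) := by
      intro l j
      have h4 : W * (x l * ((q i j : ℂ) + s * r i j)) = W * (x i * ((q l j : ℂ) + s * r l j)) := by
        fin_cases j
        · change W * (x l * ((q i 0 : ℂ) + s * r i 0)) = W * (x i * ((q l 0 : ℂ) + s * r l 0))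
          rw [hW]
          linear_combination ((q i 0 : ℂ) + s * r i 0) * h1 l - x i * y 0 * h2 l
        · change W * (x l * ((q i 1 : ℂ) + s * r i 1)) = W * (x i * ((q l 1 : ℂ) + s * r l 1))
          rw [hW]
          linear_combination ((q i 1 : ℂ) + s * r i 1) * h1 l - x i * y 1 * h2 l
      exact mul_left_cancel₀ hW0 h4
    obtain ⟨j, hj⟩ : ∃ j, (q i j : ℂ) + s * r i j ≠ 0 := by
      by_contra hall
      push Not at hall
      apply hW0
      rw [hW, hall 0, hall 1]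
      ring
    obtain ⟨u, hu, hu1, hu2⟩ := plane_rel (fun l => q l j) (fun l => r l j)
    apply hu
    apply hx'
    have h4 : ((u 0 : ℂ) * x 0 + u 1 * x 1 + u 2 * x 2) * ((q i j : ℂ) + s * r i j) = 0 := by
      have k1 : ((u 0 : ℂ) * q 0 j + u 1 * q 1 j + u 2 * q 2 j) = 0 := by exact_mod_cast hu1
      have k2 : ((u 0 : ℂ) * r 0 j + u 1 * r 1 j + u 2 * r 2 j) = 0 := by exact_mod_cast hu2
      linear_combination (u 0 : ℂ) * h3 0 j + u 1 * h3 1 j + u 2 * h3 2 j + x i * k1 +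
        x i * s * k2
    exact (mul_eq_zero.1 h4).resolve_right hj
  by_cases hq : ∃ i l, q i 0 * r l 0 - q l 0 * r i 0 ≠ 0
  · left
    obtain ⟨i, l, hil⟩ := hq
    refine ⟨(q i 0 * r l 1 + q i 1 * r l 0 - q l 0 * r i 1 - q l 1 * r i 0) /
      (q i 0 * r l 0 - q l 0 * r i 0), -(q i 1 * r l 1 - q l 1 * r i 1) /
      (q i 0 * r l 0 - q l 0 * r i 0), ?_⟩
    have hil' : ((q i 0 : ℂ) * r l 0 - q l 0 * r i 0) ≠ 0 := by exact_mod_cast hil
    push_cast
    field_simp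
    linear_combination ((r l 0 : ℂ) * y 1 - r l 1 * y 0) * hw i -
      ((r i 0 : ℂ) * y 1 - r i 1 * y 0) * hw l
  · right
    push Not at hq
    obtain ⟨i, j, hij⟩ := hne
    have hi0 : (q i 0 : ℂ) + s * r i 0 ≠ 0 := by
      intro h0
      have h1 := hw i
      rw [h0, zero_mul] at h1
      have h2 := (mul_eq_zero.1 h1.symm).resolve_right hy0
      apply hij
      fin_cases j
      · exact h0
      · exact h2
    obtain ⟨c, hc1, hc2, hc3⟩ : ∃ c : Fin 3 → ℚ, c i = 1 ∧ (∀ l, q l 0 = c l * q i 0) ∧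
        ∀ l, r l 0 = c l * r i 0 := by
      by_cases h1 : q i 0 = 0
      · have h2 : r i 0 ≠ 0 := by
          intro h2
          apply hi0
          rw [h1, h2]
          simp
        refine ⟨fun l => r l 0 / r i 0, div_self h2, fun l => ?_, fun l => ?_⟩
        · have h3 := hq i l
          rw [h1] at h3 ⊢
          have h4 : q l 0 * r i 0 = 0 := by linarith
          rw [mul_zero]
          exact (mul_eq_zero.1 h4).resolve_right h2
        · field_simp
      · refine ⟨fun l => q l 0 / q i 0, div_self h1, fun l => ?_, fun l => ?_⟩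
        · field_simp
        · have h3 := hq i l
          field_simp
          linarith
    refine ⟨i, c, hc1, fun l j => ?_⟩
    have h0 : (q l 0 : ℂ) + s * r l 0 = c l * ((q i 0 : ℂ) + s * r i 0) := by
      rw [hc2 l, hc3 l]
      push_cast
      ring
    fin_cases j
    · exact h0
    · change (q l 1 : ℂ) + s * r l 1 = c l * ((q i 1 : ℂ) + s * r i 1)
      apply mul_right_cancel₀ hy0
      rw [← hw l, h0, mul_assoc, mul_assoc, hw i]

end Pool.Agent.H445
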