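import Pool.Agent.H445.FE.E

/-!
# Three rows: the numbers of the free parameters
-/

set_option autoImplicit false

open Set Module
open Pool.Agent.TH813.Rel (DF MK subset_cl rk_le_of_subset_cl cl_of_base exists_derF mem_cl)
open Pool.Agent.Y685

noncomputable section

namespace Pool.Agent.H445

variable {C : IntermediateField ℚ ℂ}

/-- coordinates on a family which is almost algebraically independent -/
theorem exists_coord {m : ℕ} {t : Fin (m + 1) → ℂ} (ht : Function.Injective t)
    (hr : (MK C).eRk (range t) = (m : ℕ∞)) :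
    ∃ i₀, ∀ k, k ≠ i₀ → ∃ D ∈ DF C, ∀ l, l ≠ i₀ → D (t l) = if l = k then 1 else 0 := by
  classical
  obtain ⟨I, hI⟩ := (MK C).exists_isBasis (range t) (Set.subset_univ _)
  have h1 : I.encard = (m : ℕ∞) := hI.encard_eq_eRk.trans hr
  let J : Finset (Fin (m + 1)) := Finset.univ.filter fun l => t l ∈ I
  have h2 : I = t '' (J : Set (Fin (m + 1))) := by
    ext y
    constructor
    · intro hy
      obtain ⟨l, rfl⟩ := hI.subset hy
      exact ⟨l, by simpa [J] using hy, rfl⟩
    · rintro ⟨l, hl, rfl⟩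
      simpa [J] using hl
  have h3 : J.card = m := by
    rw [h2, ht.encard_image, encard_coe_eq_coe_finsetCard] at h1
    exact_mod_cast h1
  obtain ⟨i₀, hi₀⟩ : ∃ i₀, i₀ ∉ J := by
    by_contra hcon
    push Not at hcon
    have : J = Finset.univ := Finset.eq_univ_iff_forall.2 hcon
    rw [this, Finset.card_univ, Fintype.card_fin] at h3
    omega
  have h4 : J = Finset.univ.erase i₀ := by
    apply Finset.eq_of_subset_of_card_le
    · intro l hl
      rw [Finset.mem_erase]
      exact ⟨fun h => hi₀ (h ▸ hl), Finset.mem_univ _⟩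
    · rw [Finset.card_erase_of_mem (Finset.mem_univ _), Finset.card_univ, Fintype.card_fin, h3]
      omega
  have hind : AlgebraicIndependent C (fun i : I => (i : ℂ)) := hI.indep
  refine ⟨i₀, fun k _ => ?_⟩
  obtain ⟨D, hD, hD1⟩ := exists_derF C hind (fun i => if (i : ℂ) = t k then 1 else 0)
  refine ⟨D, hD, fun l hl => ?_⟩
  have h5 : t l ∈ I := by
    have : l ∈ J := by rw [h4, Finset.mem_erase]; exact ⟨hl, Finset.mem_univ _⟩
    simpa [J] using this
  have h6 := hD1 ⟨t l, h5⟩
  change D (t l) = if t l = t k then 1 else 0 at h6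
  rw [h6]
  by_cases hlk : l = k
  · rw [if_pos hlk, if_pos (congrArg t hlk)]
  · rw [if_neg hlk, if_neg (fun h => hlk (ht h))]

/-- rational values on the products of two pairs -/
theorem pair_rat {x y : Fin 2 → ℂ} (hx : LinearIndependent ℚ x) (hy : LinearIndependent ℚ y)
    (D : Derivation ℚ ℂ ℂ) (h : ∀ i j, ∃ q : ℚ, D (x i * y j) = q) : ∀ i j, D (x i * y j) = 0 := by
  choose q hq using h
  have h1 := quad_der hx hy D ![q 0 0, q 0 1, q 1 0, q 1 1] (by
    intro p
    fin_cases p
    · exact hq 0 0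
    · exact hq 0 1
    · exact hq 1 0
    · exact hq 1 1)
  have k0 : q 0 0 = 0 := congrFun h1 0
  have k1 : q 0 1 = 0 := congrFun h1 1
  have k2 : q 1 0 = 0 := congrFun h1 2
  have k3 : q 1 1 = 0 := congrFun h1 3
  intro i j
  rw [hq]
  fin_cases i <;> fin_cases j
  · change ((q 0 0 : ℚ) : ℂ) = 0
    rw [k0, Rat.cast_zero]
  · change ((q 0 1 : ℚ) : ℂ) = 0
    rw [k1, Rat.cast_zero]
  · change ((q 1 0 : ℚ) : ℂ) = 0
    rw [k2, Rat.cast_zero]
  · change ((q 1 1 : ℚ) : ℂ) = 0
    rw [k3, Rat.cast_zero]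

theorem li_two {x : Fin 3 → ℂ} (hx : LinearIndependent ℚ x) {l m : Fin 3} (h : l ≠ m) :
    LinearIndependent ℚ ![x l, x m] := by
  have h1 := hx.comp ![l, m] (by
    intro a b hab
    fin_cases a <;> fin_cases b <;> simp_all)
  have h2 : x ∘ ![l, m] = ![x l, x m] := by
    funext i
    fin_cases i <;> rfl
  rwa [h2] at h1

/-- rational values on the products of three and two numbers -/
theorem three_rat {x : Fin 3 → ℂ} {y : Fin 2 → ℂ} (hx : LinearIndependent ℚ x)
    (hy : LinearIndependent ℚ y) (D : Derivation ℚ ℂ ℂ)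
    (h : ∀ i j, ∃ q : ℚ, D (x i * y j) = q) : ∀ i j, D (x i * y j) = 0 := by
  intro i j
  obtain ⟨m, hm⟩ : ∃ m : Fin 3, i ≠ m := by
    fin_cases i
    · exact ⟨1, by decide⟩
    · exact ⟨0, by decide⟩
    · exact ⟨0, by decide⟩
  have h1 := pair_rat (li_two hx hm) hy D (by
    intro a b
    fin_cases a
    · exact h i b
    · exact h m b) 0 j
  exact h1

theorem sum_two {m : ℕ} {i₀ k : Fin (m + 1)} (hk : k ≠ i₀) (g : Fin (m + 1) → ℚ)
    (v : Fin (m + 1) → ℂ) (hv : ∀ l, l ≠ i₀ → v l = if l = k then 1 else 0) :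
    ∑ l, (g l : ℂ) * v l = g k + v i₀ * g i₀ := by
  rw [Finset.sum_eq_add k i₀ hk]
  · rw [hv k hk, if_pos rfl]
    ring
  · intro l _ hl
    rw [hv l hl.2, if_neg hl.1, mul_zero]
  · intro h; exact absurd (Finset.mem_univ _) h
  · intro h; exact absurd (Finset.mem_univ _) h

/-- the products -/
abbrev P6 (x : Fin 3 → ℂ) (y : Fin 2 → ℂ) : Set ℂ := range fun p : Fin 3 × Fin 2 => x p.1 * y p.2

theorem mem_P6 (x : Fin 3 → ℂ) (y : Fin 2 → ℂ) (i : Fin 3) (j : Fin 2) : x i * y j ∈ P6 x y :=
  ⟨(i, j), rfl⟩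

section

variable {m : ℕ} {t : Fin (m + 1) → ℂ} {x : Fin 3 → ℂ} {y : Fin 2 → ℂ} {a : Fin 3 → Fin 2 → ℂ}
  {g : Fin 3 → Fin 2 → Fin (m + 1) → ℚ}

theorem der_prod (ha : ∀ i j, a i j ∈ C)
    (hg : ∀ i j, x i * y j = a i j + ∑ l, (g i j l : ℂ) * t l) {D : Derivation ℚ ℂ ℂ}
    (hD : D ∈ DF C) (i : Fin 3) (j : Fin 2) : D (x i * y j) = ∑ l, (g i j l : ℂ) * D (t l) := by
  rw [hg, map_add, hD _ (ha i j), zero_add, map_sum]
  exact Finset.sum_congr rfl fun l _ => der_rat_mul D _ _

theorem not_all_zero (hV : ∀ l, t l ∈ Submodule.span ℚ (P6 x y)) {D : Derivation ℚ ℂ ℂ}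
    {k : Fin (m + 1)} (h1 : D (t k) = 1) : ∃ i j, D (x i * y j) ≠ 0 := by
  by_contra hcon
  push Not at hcon
  have h2 : ∀ w ∈ Submodule.span ℚ (P6 x y), D w = 0 := by
    intro w hw
    induction hw using Submodule.span_induction with
    | mem w hw =>
      obtain ⟨p, rfl⟩ := hw
      exact hcon _ _
    | zero => exact map_zero _
    | add a b _ _ ha hb => rw [map_add, ha, hb, add_zero]
    | smul c a _ ha => rw [Derivation.map_smul, ha, smul_zero]
  rw [h2 _ (hV k)] at h1
  exact zero_ne_one h1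

/-- **the two cases** -/
theorem two_cases (hx : LinearIndependent ℚ x) (hy : LinearIndependent ℚ y)
    (ha : ∀ i j, a i j ∈ C) (hg : ∀ i j, x i * y j = a i j + ∑ l, (g i j l : ℂ) * t l)
    (hV : ∀ l, t l ∈ Submodule.span ℚ (P6 x y)) {i₀ k : Fin (m + 1)} (hk : k ≠ i₀)
    {D : Derivation ℚ ℂ ℂ} (hD : D ∈ DF C) (hD1 : ∀ l, l ≠ i₀ → D (t l) = if l = k then 1 else 0) :
    (∀ q : ℚ, D (t i₀) ≠ q) ∧
    ((∃ A B : ℚ, y 1 ^ 2 = A * (y 0 * y 1) + B * y 0 ^ 2) ∨
    ∃ (i : Fin 3) (c : Fin 3 → ℚ), c i = 1 ∧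
      ∀ l j, ((g l j k : ℂ) + D (t i₀) * g l j i₀) = c l * ((g i j k : ℂ) + D (t i₀) * g i j i₀)) := by
  have hrow : ∀ i, Row D (D (t i₀)) y (x i) (fun j => g i j k) (fun j => g i j i₀) := by
    intro i j
    rw [der_prod ha hg hD, sum_two hk (g i j) (fun l => D (t l)) hD1]
  have hne : ∃ i j, D (x i * y j) ≠ 0 := not_all_zero hV (k := k) (by rw [hD1 k hk, if_pos rfl])
  have hirr : ∀ q : ℚ, D (t i₀) ≠ q := by
    intro q hq
    obtain ⟨i, j, hij⟩ := hne
    apply hij
    apply three_rat hx hy D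
    intro i j
    refine ⟨g i j k + q * g i j i₀, ?_⟩
    rw [hrow i j, hq]
    push_cast
    ring
  refine ⟨hirr, ?_⟩
  have hs : D (D (t i₀)) = 0 := by
    by_contra hs
    have h0 := Row.three_zero hs hy hx hrow
    obtain ⟨i, j, hij⟩ := hne
    apply hij
    rw [hrow i j]
    have h1 : g i j k = 0 := congrFun (h0 i).1 j
    have h2 : g i j i₀ = 0 := congrFun (h0 i).2 j
    simp only [h1, h2, Rat.cast_zero, mul_zero, add_zero]
  refine Row.const hs hy hx hrow ?_
  obtain ⟨i, j, hij⟩ := hne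
  exact ⟨i, j, by rw [← hrow i j]; exact hij⟩

theorem third (i : Fin 3) : ∃ l l' : Fin 3, l ≠ l' ∧ l ≠ i ∧ l' ≠ i ∧
    ∀ p, p = i ∨ p = l ∨ p = l' := by
  fin_cases i
  · exact ⟨1, 2, by decide, by decide, by decide, by decide⟩
  · exact ⟨0, 2, by decide, by decide, by decide, by decide⟩
  · exact ⟨0, 1, by decide, by decide, by decide, by decide⟩

theorem li_sub {x : Fin 3 → ℂ} (hx : LinearIndependent ℚ x) {i l l' : Fin 3} (h1 : l ≠ l')
    (h2 : l ≠ i) (h3 : l' ≠ i) (c c' : ℚ) :
    LinearIndependent ℚ ![x l - c * x i, x l' - c' * x i] := by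
  classical
  apply li_pair
  intro u v huv
  rw [Fintype.linearIndependent_iff] at hx
  have h4 := hx (fun p => (if p = l then u else 0) + (if p = l' then v else 0) +
    (if p = i then -(u * c + v * c') else 0)) (by
      have h5 : ∀ p, ((if p = l then u else 0) + (if p = l' then v else 0) +
          (if p = i then -(u * c + v * c') else 0) : ℚ) • x p =
          (if p = l then (u : ℂ) * x l else 0) + (if p = l' then (v : ℂ) * x l' else 0) +
          (if p = i then -((u : ℂ) * c + v * c') * x i else 0) := by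
        intro p
        rw [Rat.smul_def]
        push_cast
        by_cases e1 : p = l
        · subst e1
          simp [h1, h2]
        · by_cases e2 : p = l'
          · subst e2
            simp [h1.symm, h3]
          · by_cases e3 : p = i
            · subst e3
              simp [e1, e2]
            · simp [e1, e2, e3]
      simp only [h5]
      rw [Finset.sum_add_distrib, Finset.sum_add_distrib]
      simp only [Finset.sum_ite_eq', Finset.mem_univ, if_true]
      linear_combination huv)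
  have k1 := h4 l
  have k2 := h4 l'
  simp only [if_true, h1, h2, h3, h1.symm, if_false, add_zero, zero_add] at k1 k2
  exact ⟨k1, k2⟩

/-- **the second case**: two rows are constant -/
theorem case_two (hx : LinearIndependent ℚ x) (hy : LinearIndependent ℚ y)
    (ha : ∀ i j, a i j ∈ C) (hg : ∀ i j, x i * y j = a i j + ∑ l, (g i j l : ℂ) * t l)
    {i₀ k : Fin (m + 1)} {s : ℂ} (hirr : ∀ q : ℚ, s ≠ q)
    (hall : ∀ k, k ≠ i₀ → ∃ D ∈ DF C, ∀ l, l ≠ i₀ → D (t l) = if l = k then 1 else 0)
    {i : Fin 3} {c : Fin 3 → ℚ}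
    (hc : ∀ l j, ((g l j k : ℂ) + s * g l j i₀) = c l * ((g i j k : ℂ) + s * g i j i₀)) :
    (MK C).eRk (P6 x y) ≤ 1 ∧ ∃ x' y' : Fin 2 → ℂ, LinearIndependent ℚ x' ∧
      LinearIndependent ℚ y' ∧ ∀ i j, x' i * y' j ∈ C ∧
        x' i * y' j ∈ Submodule.span ℚ (P6 x y) := by
  obtain ⟨l, l', h1, h2, h3, h4⟩ := third i
  -- the coefficients at `i₀` vanish
  have hz : ∀ p j, g p j i₀ - c p * g i j i₀ = 0 := by
    intro p j
    by_contra hne
    apply hirr (-(g p j k - c p * g i j k) / (g p j i₀ - c p * g i j i₀))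
    have hne' : ((g p j i₀ : ℂ) - c p * g i j i₀) ≠ 0 := by exact_mod_cast hne
    push_cast
    rw [eq_div_iff hne']
    linear_combination hc p j
  have hli := li_sub hx h1 h2 h3 (c l) (c l')
  have hexp : ∀ p j, (x p - c p * x i) * y j = (a p j - c p * a i j) +
      ∑ n, ((g p j n - c p * g i j n : ℚ) : ℂ) * t n := by
    intro p j
    have e1 : (x p - c p * x i) * y j = x p * y j - c p * (x i * y j) := by ring
    rw [e1, hg p j, hg i j, mul_add, Finset.mul_sum]
    have e2 : ∑ n, ((g p j n - c p * g i j n : ℚ) : ℂ) * t n =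
        ∑ n, (g p j n : ℂ) * t n - ∑ n, (c p : ℂ) * ((g i j n : ℂ) * t n) := by
      rw [← Finset.sum_sub_distrib]
      apply Finset.sum_congr rfl
      intro n _
      push_cast
      ring
    rw [e2]
    ring
  have hval : ∀ n, n ≠ i₀ → ∀ D ∈ DF C, (∀ l, l ≠ i₀ → D (t l) = if l = n then 1 else 0) →
      ∀ p j, D ((x p - c p * x i) * y j) = ((g p j n - c p * g i j n : ℚ) : ℂ) := by
    intro n hn D hD hD1 p j
    have e0 : a p j - (c p : ℂ) * a i j ∈ C :=
      sub_mem (ha p j) (mul_mem (algebraMap_mem C (c p)) (ha i j))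
    rw [hexp, map_add, hD _ e0, zero_add, map_sum]
    have e1 : ∀ l, D (((g p j l - c p * g i j l : ℚ) : ℂ) * t l) =
        ((g p j l - c p * g i j l : ℚ) : ℂ) * D (t l) := fun l => der_rat_mul D _ _
    simp only [e1]
    rw [sum_two hn (fun l => g p j l - c p * g i j l) (fun l => D (t l)) hD1, hz p j]
    simp
  have hzero : ∀ p, (p = l ∨ p = l') → ∀ j n, g p j n - c p * g i j n = 0 := by
    intro p hp j n
    by_cases hn : n = i₀
    · rw [hn]; exact hz p j
    · obtain ⟨D, hD, hD1⟩ := hall n hn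
      have e1 := pair_rat hli hy D (by
        intro α β
        fin_cases α
        · exact ⟨_, hval n hn D hD hD1 l β⟩
        · exact ⟨_, hval n hn D hD hD1 l' β⟩)
      have e2 : D ((x p - c p * x i) * y j) = 0 := by
        rcases hp with rfl | rfl
        · exact e1 0 j
        · exact e1 1 j
      rw [hval n hn D hD hD1 p j] at e2
      exact_mod_cast e2
  have hmem : ∀ p, (p = l ∨ p = l') → ∀ j, (x p - c p * x i) * y j ∈ C := by
    intro p hp j
    rw [hexp]
    have e1 : ∑ n, ((g p j n - c p * g i j n : ℚ) : ℂ) * t n = 0 :=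
      Finset.sum_eq_zero fun n _ => by rw [hzero p hp j n, Rat.cast_zero, zero_mul]
    rw [e1, add_zero]
    exact sub_mem (ha p j) (mul_mem (algebraMap_mem C (c p)) (ha i j))
  have hspan : ∀ p j, (x p - c p * x i) * y j ∈ Submodule.span ℚ (P6 x y) := by
    intro p j
    have e1 : (x p - c p * x i) * y j = x p * y j - (c p) • (x i * y j) := by
      rw [Rat.smul_def]; ring
    rw [e1]
    exact sub_mem (Submodule.subset_span (mem_P6 x y p j))
      (Submodule.smul_mem _ _ (Submodule.subset_span (mem_P6 x y i j)))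
  refine ⟨?_, ![x l - c l * x i, x l' - c l' * x i], y, hli, hy, ?_⟩
  · -- the rank
    have hxl : x l - c l * x i ≠ 0 := hli.ne_zero 0
    have hy0 : y 0 ≠ 0 := hy.ne_zero 0
    have hκ : y 1 / y 0 ∈ C := by
      have e1 : y 1 / y 0 = ((x l - c l * x i) * y 1) / ((x l - c l * x i) * y 0) := by
        field_simp
      rw [e1]
      exact div_mem (hmem l (Or.inl rfl) 1) (hmem l (Or.inl rfl) 0)
    have hb : ∀ j, x i * y j ∈ clo C {x i * y 0} := by
      intro j
      fin_cases j
      · exact subset_clo (mem_singleton _)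
      · change x i * y 1 ∈ _
        have e1 : x i * y 1 = (y 1 / y 0) * (x i * y 0) := by field_simp
        rw [e1]
        exact mul_mem (base_clo hκ) (subset_clo (mem_singleton _))
    have hsub : P6 x y ⊆ (MK C).closure {x i * y 0} := by
      rintro _ ⟨⟨p, j⟩, rfl⟩
      rw [← mem_clo_iff]
      change x p * y j ∈ _
      have e1 : x p * y j = (x p - c p * x i) * y j + c p * (x i * y j) := by ring
      rw [e1]
      by_cases hp : p = i
      · subst hp
        have e2 : (x p - c p * x p) * y j + c p * (x p * y j) = x p * y j := by ring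
        rw [e2]
        exact hb j
      · have hp' : p = l ∨ p = l' := (h4 p).resolve_left hp
        exact add_mem (base_clo (hmem p hp' j))
          (mul_mem (algebraMap_mem _ (c p)) (hb j))
    refine (rk_le_of_subset_cl hsub).trans (((MK C).eRk_le_encard _).trans ?_)
    rw [encard_singleton]
  · intro α j
    fin_cases α
    · exact ⟨hmem l (Or.inl rfl) j, hspan l j⟩
    · exact ⟨hmem l' (Or.inr rfl) j, hspan l' j⟩

end

end Pool.Agent.H445
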