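import Pool.Agent.H445.FE.G

/-!
# Three rows: the case of a quadratic ratio, and the conclusion
-/

set_option autoImplicit false

open Set Module
open Pool.Agent.TH813.Rel (DF MK subset_cl rk_le_of_subset_cl cl_of_base exists_derF mem_cl)
open Pool.Agent.Y685

noncomputable section

namespace Pool.Agent.H445

variable {C : IntermediateField ℚ ℂ} {x : Fin 3 → ℂ} {y : Fin 2 → ℂ}

/-- **the first case**: a quadratic ratio -/
theorem case_one (hC : clo C (∅ : Set ℂ) ≤ C) {V₁ : Submodule ℚ ℂ} [FiniteDimensional ℚ V₁]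
    (hx : LinearIndependent ℚ x) (hy : LinearIndependent ℚ y)
    (hz : ∀ i j, ∃ a ∈ C, ∃ b ∈ V₁, x i * y j = a + b) {τ : ℕ}
    (hτ : (MK C).eRk (P6 x y) = (τ : ℕ∞)) (he : finrank ℚ V₁ = τ + 1) {A B : ℚ}
    (hq : y 1 ^ 2 = A * (y 0 * y 1) + B * y 0 ^ 2) :
    (MK C).eRk (P6 x y) ≤ 1 ∧ ∃ x' y' : Fin 2 → ℂ, LinearIndependent ℚ x' ∧
      LinearIndependent ℚ y' ∧ ∀ i j, x' i * y' j ∈ C ∧
        x' i * y' j ∈ Submodule.span ℚ (P6 x y) := by
  classical
  have hy0 : y 0 ≠ 0 := hy.ne_zero 0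
  obtain ⟨κ, hκ⟩ : ∃ κ, κ = y 1 / y 0 := ⟨_, rfl⟩
  have hκy : y 1 = κ * y 0 := by rw [hκ]; field_simp
  have hκ2 : κ ^ 2 = A * κ + B := by
    rw [hκy] at hq
    have h1 : y 0 ^ 2 * (κ ^ 2) = y 0 ^ 2 * (A * κ + B) := by linear_combination hq
    exact mul_left_cancel₀ (pow_ne_zero 2 hy0) h1
  have hκli : ∀ u v : ℚ, (u : ℂ) + v * κ = 0 → u = 0 ∧ v = 0 := by
    intro u v huv
    by_contra hcon
    have h1 : u ≠ 0 ∨ v ≠ 0 := by
      by_contra h
      push Not at h
      exact hcon h
    apply pair_ne hy h1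
    rw [hκy]
    linear_combination y 0 * huv
  have hκC : κ ∈ C := by
    apply hC
    intro D hD _
    have h1 := congrArg D hκ2
    have hQ : D (B : ℂ) = 0 := D.map_algebraMap B
    rw [sq, D.leibniz, map_add, der_rat_mul, hQ] at h1
    simp only [smul_eq_mul] at h1
    have h2 : ((-A : ℚ) + (2 : ℚ) * κ) * D κ = 0 := by
      push_cast
      linear_combination h1
    rcases mul_eq_zero.1 h2 with h3 | h3
    · exact absurd (hκli (-A) 2 h3).2 (by norm_num)
    · exact h3
  have hinj : Function.Injective fun i => x i * y 0 := by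
    intro i l h
    exact hx.injective (mul_right_cancel₀ hy0 h)
  -- the basis
  have hr : (MK C).eRk (range fun i => x i * y 0) = (τ : ℕ∞) := by
    rw [← hτ]
    apply le_antisymm
    · apply (MK C).eRk_mono
      rintro _ ⟨i, rfl⟩
      exact mem_P6 x y i 0
    · apply rk_le_of_subset_cl
      rintro _ ⟨⟨i, j⟩, rfl⟩
      rw [← mem_clo_iff]
      have h0 : x i * y 0 ∈ clo C (range fun i => x i * y 0) := subset_clo ⟨i, rfl⟩
      fin_cases j
      · exact h0
      · change x i * y 1 ∈ _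
        rw [hκy]
        have h1 : x i * (κ * y 0) = κ * (x i * y 0) := by ring
        rw [h1]
        exact mul_mem (base_clo hκC) h0
  obtain ⟨I, hI⟩ := (MK C).exists_isBasis (range fun i => x i * y 0) (Set.subset_univ _)
  have h1 : I.encard = (τ : ℕ∞) := hI.encard_eq_eRk.trans hr
  let J : Finset (Fin 3) := Finset.univ.filter fun l => x l * y 0 ∈ I
  have h2 : I = (fun i => x i * y 0) '' (J : Set (Fin 3)) := by
    ext w
    constructor
    · intro hw
      obtain ⟨l, rfl⟩ := hI.subset hw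
      exact ⟨l, by simpa [J] using hw, rfl⟩
    · rintro ⟨l, hl, rfl⟩
      simpa [J] using hl
  have h3 : J.card = τ := by
    rw [h2, hinj.encard_image, encard_coe_eq_coe_finsetCard] at h1
    exact_mod_cast h1
  have hind : AlgebraicIndependent C (fun i : I => (i : ℂ)) := hI.indep
  have hJ : ∀ i ∈ J, x i * y 0 ∈ I := fun i hi => by simpa [J] using hi
  choose a ha b hb hab using hz
  -- the family of the moving parts
  have hli : LinearIndependent ℚ (fun p : J × Fin 2 => (⟨b p.1 p.2, hb _ _⟩ : V₁)) := by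
    rw [Fintype.linearIndependent_iff]
    intro G hG
    have h4 : ∑ p : J × Fin 2, (G p : ℂ) * b p.1 p.2 = 0 := by
      have := congrArg V₁.subtype hG
      rw [map_sum, map_zero] at this
      rw [← this]
      apply Finset.sum_congr rfl
      intro p _
      rw [map_smul, Rat.smul_def]
      rfl
    have h5 : ∑ p : J × Fin 2, (G p : ℂ) * (x p.1 * y p.2) ∈ C := by
      have : ∑ p : J × Fin 2, (G p : ℂ) * (x p.1 * y p.2) =
          ∑ p : J × Fin 2, (G p : ℂ) * a p.1 p.2 := by
        rw [← add_zero (∑ p : J × Fin 2, (G p : ℂ) * a p.1 p.2), ← h4, ← Finset.sum_add_distrib]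
        apply Finset.sum_congr rfl
        intro p _
        rw [hab]
        ring
      rw [this]
      exact sum_mem fun p _ => mul_mem (algebraMap_mem C (G p)) (ha _ _)
    have h6 : ∀ i : J, G (i, 0) = 0 ∧ G (i, 1) = 0 := by
      intro i
      obtain ⟨D, hD, hD1⟩ := exists_derF C hind (fun w => if (w : ℂ) = x i * y 0 then 1 else 0)
      have hD2 : ∀ l : J, D (x l * y 0) = if l = i then 1 else 0 := by
        intro l
        have h7 := hD1 ⟨x l * y 0, hJ l l.2⟩
        change D (x l * y 0) = if x l * y 0 = x i * y 0 then 1 else 0 at h7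
        rw [h7]
        by_cases hl : l = i
        · rw [if_pos hl, if_pos (by rw [hl])]
        · rw [if_neg hl, if_neg (fun h => hl (Subtype.ext (hinj h)))]
      have hD3 : ∀ l : J, D (x l * y 1) = κ * D (x l * y 0) := by
        intro l
        rw [hκy]
        have h7 : x l * (κ * y 0) = κ * (x l * y 0) := by ring
        rw [h7, D.leibniz κ, hD κ hκC]
        simp
      have h8 := hD _ h5
      rw [map_sum, Fintype.sum_prod_type] at h8
      simp only [Fin.sum_univ_two, der_rat_mul, hD3, hD2] at h8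
      rw [Finset.sum_eq_single i] at h8
      · simp only [if_true] at h8
        apply hκli
        linear_combination h8
      · intro l _ hl
        simp [hl]
      · intro h; exact absurd (Finset.mem_univ _) h
    rintro ⟨i, j⟩
    fin_cases j
    · exact (h6 i).1
    · exact (h6 i).2
  have h4 := hli.fintype_card_le_finrank
  rw [he, Fintype.card_prod, Fintype.card_coe, h3, Fintype.card_fin] at h4
  have hτ1 : τ ≤ 1 := by omega
  refine ⟨by rw [hτ]; exact_mod_cast hτ1, ?_⟩
  -- the relation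
  have h5 : ¬ LinearIndependent ℚ (fun i : Fin 3 => (⟨b i 0, hb _ _⟩ : V₁)) := by
    intro h
    have := h.fintype_card_le_finrank
    rw [he, Fintype.card_fin] at this
    omega
  rw [Fintype.not_linearIndependent_iff] at h5
  obtain ⟨u, hu, i, hi⟩ := h5
  have hu' : ∑ l, (u l : ℂ) * b l 0 = 0 := by
    have := congrArg V₁.subtype hu
    rw [map_sum, map_zero] at this
    rw [← this]
    apply Finset.sum_congr rfl
    intro p _
    rw [map_smul, Rat.smul_def]
    rfl
  obtain ⟨ξ, hξ⟩ : ∃ ξ, ξ = ∑ l, (u l : ℂ) * (x l * y 0) := ⟨_, rfl⟩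
  have hξC : ξ ∈ C := by
    have : ξ = ∑ l, (u l : ℂ) * a l 0 := by
      rw [hξ, ← add_zero (∑ l, (u l : ℂ) * a l 0), ← hu', ← Finset.sum_add_distrib]
      apply Finset.sum_congr rfl
      intro p _
      rw [hab]
      ring
    rw [this]
    exact sum_mem fun p _ => mul_mem (algebraMap_mem C (u p)) (ha _ _)
  have hξ0 : ξ ≠ 0 := by
    intro h0
    rw [Fintype.linearIndependent_iff] at hx
    apply hi
    refine hx u ?_ i
    have : (∑ l, u l • x l) * y 0 = 0 := by
      rw [← h0, hξ, Finset.sum_mul]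
      apply Finset.sum_congr rfl
      intro l _
      rw [Rat.smul_def]
      ring
    exact (mul_eq_zero.1 this).resolve_right hy0
  have hξV : ξ ∈ Submodule.span ℚ (P6 x y) := by
    rw [hξ]
    refine sum_mem fun l _ => ?_
    rw [← Rat.smul_def]
    exact Submodule.smul_mem _ _ (Submodule.subset_span (mem_P6 x y l 0))
  have hκξV : κ * ξ ∈ Submodule.span ℚ (P6 x y) := by
    rw [hξ, Finset.mul_sum]
    refine sum_mem fun l _ => ?_
    have : κ * ((u l : ℂ) * (x l * y 0)) = (u l) • (x l * y 1) := by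
      rw [Rat.smul_def, hκy]
      ring
    rw [this]
    exact Submodule.smul_mem _ _ (Submodule.subset_span (mem_P6 x y l 1))
  refine ⟨![ξ, κ * ξ], ![1, κ], ?_, ?_, ?_⟩
  · apply li_pair
    intro u v huv
    apply hκli
    have : ξ * ((u : ℂ) + v * κ) = 0 := by linear_combination huv
    exact (mul_eq_zero.1 this).resolve_left hξ0
  · apply li_pair
    intro u v huv
    apply hκli
    linear_combination huv
  · have e2 : (κ * ξ) * κ = A * (κ * ξ) + B * ξ := by
      have : (κ * ξ) * κ = κ ^ 2 * ξ := by ring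
      rw [this, hκ2]
      ring
    intro i j
    fin_cases i <;> fin_cases j
    · change ξ * 1 ∈ C ∧ ξ * 1 ∈ _
      rw [mul_one]
      exact ⟨hξC, hξV⟩
    · change ξ * κ ∈ C ∧ ξ * κ ∈ _
      rw [mul_comm]
      exact ⟨mul_mem hκC hξC, hκξV⟩
    · change (κ * ξ) * 1 ∈ C ∧ (κ * ξ) * 1 ∈ _
      rw [mul_one]
      exact ⟨mul_mem hκC hξC, hκξV⟩
    · change (κ * ξ) * κ ∈ C ∧ (κ * ξ) * κ ∈ _
      refine ⟨mul_mem (mul_mem hκC hξC) hκC, ?_⟩
      rw [e2, ← Rat.smul_def, ← Rat.smul_def]
      exact add_mem (Submodule.smul_mem _ _ hκξV) (Submodule.smul_mem _ _ hξV)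

/-- **Three rows, no room**: a configuration with one relation more than necessary comes from a
constant pair of pairs -/
theorem three_cost (hC : clo C (∅ : Set ℂ) ≤ C) {V₁ : Submodule ℚ ℂ} [FiniteDimensional ℚ V₁]
    (hx : LinearIndependent ℚ x) (hy : LinearIndependent ℚ y)
    (hV : V₁ ≤ Submodule.span ℚ (P6 x y))
    (hz : ∀ i j, ∃ a ∈ C, ∃ b ∈ V₁, x i * y j = a + b) {τ : ℕ}
    (hτ : (MK C).eRk (P6 x y) = (τ : ℕ∞)) (he : finrank ℚ V₁ = τ + 1) (h0 : τ ≠ 0) :
    (MK C).eRk (P6 x y) ≤ 1 ∧ ∃ x' y' : Fin 2 → ℂ, LinearIndependent ℚ x' ∧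
      LinearIndependent ℚ y' ∧ ∀ i j, x' i * y' j ∈ C ∧
        x' i * y' j ∈ Submodule.span ℚ (P6 x y) := by
  classical
  obtain ⟨t, ht, hs⟩ : ∃ t : Fin (τ + 1) → ℂ, LinearIndependent ℚ t ∧
      Submodule.span ℚ (range t) = V₁ := by
    rw [← he]
    exact exists_tuple V₁
  have htV : ∀ l, t l ∈ V₁ := fun l => hs ▸ Submodule.subset_span ⟨l, rfl⟩
  -- the rank of the basis
  have hr : (MK C).eRk (range t) = (τ : ℕ∞) := by
    rw [← hτ]
    apply le_antisymm
    · apply rk_le_of_subset_cl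
      rintro _ ⟨l, rfl⟩
      rw [← mem_clo_iff]
      have h1 : Submodule.span ℚ (P6 x y) ≤ Subalgebra.toSubmodule (clo C (P6 x y)).toSubalgebra :=
        Submodule.span_le.2 fun w hw => subset_clo hw
      exact h1 (hV (htV l))
    · apply rk_le_of_subset_cl
      rintro _ ⟨⟨i, j⟩, rfl⟩
      rw [← mem_clo_iff]
      obtain ⟨a, ha, b, hb, hab⟩ := hz i j
      change x i * y j ∈ _
      rw [hab]
      refine add_mem (base_clo ha) ?_
      have h1 : V₁ ≤ Subalgebra.toSubmodule (clo C (range t)).toSubalgebra := by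
        rw [← hs]
        exact Submodule.span_le.2 fun w hw => subset_clo hw
      exact h1 hb
  obtain ⟨i₀, hall⟩ := exists_coord ht.injective hr
  obtain ⟨k, hk⟩ : ∃ k : Fin (τ + 1), k ≠ i₀ := by
    have : Nontrivial (Fin (τ + 1)) := by
      rw [Fin.nontrivial_iff_two_le]
      omega
    exact exists_ne i₀
  have hz' := hz
  choose a ha b hb hab using hz'
  have hb' : ∀ i j, ∃ g : Fin (τ + 1) → ℚ, b i j = ∑ l, (g l : ℂ) * t l := by
    intro i j
    have h1 := hb i j
    rw [← hs, Submodule.mem_span_range_iff_exists_fun] at h1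
    obtain ⟨g, hg⟩ := h1
    refine ⟨g, ?_⟩
    rw [← hg]
    apply Finset.sum_congr rfl
    intro l _
    rw [Rat.smul_def]
  choose g hg using hb'
  have hg' : ∀ i j, x i * y j = a i j + ∑ l, (g i j l : ℂ) * t l := by
    intro i j
    rw [hab, hg]
  obtain ⟨D, hD, hD1⟩ := hall k hk
  obtain ⟨hirr, h | ⟨i, c, -, hc⟩⟩ := two_cases hx hy ha hg' (fun l => hV (htV l)) hk hD hD1
  · obtain ⟨A, B, hq⟩ := h
    exact case_one hC hx hy hz hτ he hq
  · exact case_two hx hy ha hg' hirr hall hc

end Pool.Agent.H445
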