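import Pool.Agent.H445.FE.I
import Pool.Agent.H445.FE.C

/-!
# Three rows: the number of the directions
-/

set_option autoImplicit false

open Set Module MeasureTheory MvPolynomial
open Pool.Agent.TH813.Rel (DF MK subset_cl rk_le_of_subset_cl cl_of_base exists_derF mem_cl)
open Pool.Agent.Y685
open Pool.Agent.Y776 (Tf lg lgL Tf_lin lg_lin ET ET_finite)
open scoped NNReal ENNReal

noncomputable section

namespace Pool.Agent.H445

/-- the directions are derivations over the closed field -/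
theorem Tan_le_rank {n : ℕ} {K : Subfield ℂ} (z : Fin n → ℂ) :
    (finrank ℂ (Tan PE K (PhE z)) : ℕ∞) ≤ (MK (IFd K)).eRk (range z) := by
  classical
  have hfin : (range z).Finite := finite_range z
  have : Fintype (range z) := hfin.fintype
  rw [← rank_evS hfin]
  let φ : (range z → ℂ) →ₗ[ℂ] (Fin n → ℂ) :=
    { toFun := fun v j => v ⟨z j, j, rfl⟩
      map_add' := fun _ _ => rfl
      map_smul' := fun _ _ => rfl }
  have h1 : Tan PE K (PhE z) ≤ (LinearMap.range (evS (IFd K) (range z))).map φ := by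
    intro v hv
    obtain ⟨D, hD, h2⟩ := Tan_DE hv
    exact ⟨evS (IFd K) (range z) ⟨D, hD.1⟩, ⟨_, rfl⟩, funext fun j => h2 j⟩
  have h2 := Submodule.finrank_mono h1
  have h3 := Submodule.finrank_map_le φ (LinearMap.range (evS (IFd K) (range z)))
  exact_mod_cast h2.trans h3

/-- the exponential of a rational combination -/
theorem exp_span {C : IntermediateField ℚ ℂ} {n : ℕ} {z : Fin n → ℂ} {v : ℂ}
    (hv : v ∈ Submodule.span ℚ (range z)) : Complex.exp v ∈ (MK C).closure (EX z) := by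
  rw [← mem_clo_iff]
  intro D hD h
  rw [Submodule.mem_span_range_iff_exists_fun] at hv
  obtain ⟨q, rfl⟩ := hv
  have h1 : lg D (∑ j, q j • z j) = 0 := by
    rw [lg_lin]
    refine Finset.sum_eq_zero fun j _ => ?_
    have h2 : lg D (z j) = 0 := by
      unfold lg
      rw [h _ ⟨j, rfl⟩, zero_div]
    rw [h2, mul_zero]
  unfold lg at h1
  exact (div_eq_zero_iff.1 h1).resolve_right (Complex.exp_ne_zero _)

theorem range_eq_P6 {x : Fin 3 → ℂ} {y : Fin 2 → ℂ} {z : Fin (3 * 2) → ℂ}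
    (h : ∀ i j, z (finProdFinEquiv (i, j)) = x i * y j) : range z = P6 x y := by
  ext w
  constructor
  · rintro ⟨p, rfl⟩
    refine ⟨finProdFinEquiv.symm p, ?_⟩
    change x (finProdFinEquiv.symm p).1 * y (finProdFinEquiv.symm p).2 = z p
    rw [← h, Prod.mk.eta, Equiv.apply_symm_apply]
  · rintro ⟨⟨i, j⟩, rfl⟩
    exact ⟨finProdFinEquiv (i, j), h i j⟩

/-- **3 × 2: the number of the directions** -/
theorem PrdR.le_three {C : IntermediateField ℚ ℂ} {K : Subfield ℂ} (hK : ClE K) {L : PeriodPair}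
    (hL2 : L.g₂ ∈ K) (hL3 : L.g₃ ∈ K) (hC : C ≤ IFd K) {k : ℕ} {z : Fin (3 * 2) → ℂ}
    (hz : PrdR C 3 2 k z) :
    finrank ℂ (Tan PE K (PhE z)) ≤ min k 6 - 1 ∧
    (3 ≤ k → finrank ℂ (Tan PE K (PhE z)) ≤ min k 6 - 2) ∧
    (finrank ℂ (Tan PE K (PhE z)) = 0 → ∀ j, z j ∈ K) ∧
    (k ≤ 2 → finrank ℂ (Tan PE K (PhE z)) ≠ 0 →
      ∃ x' y' : Fin 2 → ℂ, LinearIndependent ℚ x' ∧ LinearIndependent ℚ y' ∧
        ∀ i j, Complex.exp (x' i * y' j) ∈ clo C ∅ ∧ x' i * y' j ∈ Submodule.span ℚ (range z)) := by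
  classical
  obtain ⟨x, y, hx, hy, hxy, hk⟩ := hz
  have hrg := range_eq_P6 hxy
  obtain ⟨V₁, hf, hV, hdec, hr, h0⟩ := hK.cost hL2 hL3 z
  set δ := finrank ℂ (Tan PE K (PhE z)) with hδ
  by_cases hδ0 : δ = 0
  · exact ⟨by omega, fun _ => by omega, h0, fun _ h => absurd hδ0 h⟩
  -- some coordinate is outside of the field
  obtain ⟨p, hp⟩ : ∃ p, z p ∉ K := by
    by_contra hcon
    push Not at hcon
    exact hδ0 (Tan_zero hcon)
  have hne : finrank ℚ V₁ ≠ 0 := by
    intro h1
    obtain ⟨a, ha, b, hb, hab⟩ := hdec p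
    rw [Submodule.finrank_eq_zero.1 h1, Submodule.mem_bot] at hb
    apply hp
    rw [hab, hb, add_zero]
    exact ha
  have h1 := rank_lt (C := IFd K) hV (fun i => hdec i) hne (fun D q h => by
    have h2 := three_rat hx hy D (fun i j => ⟨q (finProdFinEquiv (i, j)), by
      rw [← hxy, h]⟩)
    funext p
    have h3 : D (z p) = 0 := by
      have h4 := h2 (finProdFinEquiv.symm p).1 (finProdFinEquiv.symm p).2
      rw [← hxy, Prod.mk.eta, Equiv.apply_symm_apply] at h4
      exact h4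
    rw [h] at h3
    exact_mod_cast h3)
  have h3 : (MK (IFd K)).eRk (ET z) ≤ (MK (IFd K)).eRk (range z) + (MK (IFd K)).eRk (EX z) :=
    (MK (IFd K)).eRk_union_le_eRk_add_eRk _ _
  have fin1 : (MK (IFd K)).eRk (range z) ≠ ⊤ := by
    rw [← lt_top_iff_ne_top]
    exact lt_of_le_of_lt ((MK _).eRk_le_encard _) (finite_range z).encard_lt_top
  have fin2 : (MK (IFd K)).eRk (EX z) ≠ ⊤ := by
    rw [← lt_top_iff_ne_top]
    exact lt_of_le_of_lt ((MK _).eRk_le_encard _) (finite_range _).encard_lt_top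
  have fin3 : (MK (IFd K)).eRk (ET z) ≠ ⊤ := by
    rw [← lt_top_iff_ne_top]
    exact lt_of_le_of_lt ((MK _).eRk_le_encard _) (ET_finite z).encard_lt_top
  have hδτ := Tan_le_rank (K := K) z
  have hck : (MK (IFd K)).eRk (EX z) ≤ (k : ℕ∞) := (rank_mono_base hC (EX_finite z)).trans hk
  have hc6 : (MK (IFd K)).eRk (EX z) ≤ (6 : ℕ∞) := by
    refine ((MK _).eRk_le_encard _).trans ?_
    rw [EX, ← image_univ]
    refine (encard_image_le _ _).trans ?_
    rw [encard_univ]
    simp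
  obtain ⟨τ, hτ⟩ := ENat.ne_top_iff_exists.1 fin1
  obtain ⟨c, hc⟩ := ENat.ne_top_iff_exists.1 fin2
  obtain ⟨w, hw⟩ := ENat.ne_top_iff_exists.1 fin3
  rw [← hτ] at h1 h3 hδτ
  rw [← hc] at h3 hck hc6
  rw [← hw] at h3 hr
  have k1 : τ + 1 ≤ finrank ℚ V₁ := by exact_mod_cast h1
  have k3 : w ≤ τ + c := by exact_mod_cast h3
  have k4 : finrank ℚ V₁ + δ ≤ w := by exact_mod_cast hr
  have k5 : c ≤ k := by exact_mod_cast hck
  have k6 : c ≤ 6 := by exact_mod_cast hc6
  have k7 : δ ≤ τ := by exact_mod_cast hδτ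
  by_cases he : finrank ℚ V₁ = τ + 1
  · -- a special configuration
    have h4 := three_cost (C := IFd K) (hK.clo_le le_rfl (by simp)) hx hy (by rw [← hrg]; exact hV)
      (fun i j => by
        obtain ⟨a, ha, b, hb, hab⟩ := hdec (finProdFinEquiv (i, j))
        exact ⟨a, ha, b, hb, by rw [← hxy, hab]⟩) (τ := τ) (by rw [← hrg]; exact hτ.symm) he
      (by omega)
    rw [← hrg, ← hτ] at h4
    obtain ⟨h5, x', y', hx', hy', h6⟩ := h4
    have h5' : τ ≤ 1 := by exact_mod_cast h5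
    refine ⟨by omega, fun _ => by omega, h0, fun hk2 _ => ⟨x', y', hx', hy', ?_⟩⟩
    -- the exponentials of the constant pairs
    set B : Set ℂ := range fun p : Fin 2 × Fin 2 => Complex.exp (x' p.1 * y' p.2) with hB
    have hBf : B.Finite := finite_range _
    have h7 : (MK C).eRk (B ∪ EX z) ≤ (2 : ℕ∞) := by
      have h8 : B ∪ EX z ⊆ (MK C).closure (EX z) := by
        rintro _ (⟨p, rfl⟩ | h)
        · exact exp_span (h6 p.1 p.2).2
        · exact subset_cl _ h
      refine (rk_le_of_subset_cl h8).trans (hk.trans ?_)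
      exact_mod_cast hk2
    rw [rank_add hBf (EX_finite z)] at h7
    have h8 : clo C B ≤ IFd K := by
      apply hK.clo_le hC
      rintro _ ⟨p, rfl⟩
      exact hK.exp _ (h6 p.1 p.2).1
    have h9 := rank_mono_base h8 (EX_finite z)
    rw [← hc] at h9
    have h10 : (MK C).eRk B = 0 := by
      have fin4 : (MK C).eRk B ≠ ⊤ := by
        rw [← lt_top_iff_ne_top]
        exact lt_of_le_of_lt ((MK _).eRk_le_encard _) hBf.encard_lt_top
      obtain ⟨b, hb⟩ := ENat.ne_top_iff_exists.1 fin4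
      rw [← hb] at h7 ⊢
      have h11 : ((b + c : ℕ) : ℕ∞) ≤ 2 := by
        push_cast
        exact (add_le_add le_rfl h9).trans h7
      have h12 : b + c ≤ 2 := by exact_mod_cast h11
      have h13 : b = 0 := by omega
      rw [h13]
      rfl
    intro i j
    refine ⟨?_, (h6 i j).2⟩
    rw [mem_clo_iff]
    have h11 : B ⊆ (MK C).closure ∅ := by
      rw [(MK C).closure_empty]
      exact (MK C).eRk_eq_zero_iff.1 h10
    exact h11 ⟨(i, j), rfl⟩
  · exact ⟨by omega, fun _ => by omega, h0, fun hk2 h => absurd (by omega) h⟩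

/-- the products with a free third row -/
def pt6 {𝕜 : Type} [Field 𝕜] (x y : Fin 2 → 𝕜) (u : 𝕜) : Fin (3 * 2) → 𝕜 :=
  ![x 0 * y 0, x 0 * y 1, x 1 * y 0, x 1 * y 1, u, u * (y 1 / y 0)]

/-- **3 × 2: a constant pair of pairs gives a free direction** -/
theorem low_pair {C : IntermediateField ℚ ℂ} {x y : Fin 2 → ℂ} (hy : LinearIndependent ℚ y)
    (h : ∀ i j, Complex.exp (x i * y j) ∈ clo C ∅) {u : ℂ}
    (hli : ∀ a b c : ℚ, (a : ℂ) * (x 0 * y 0) + b * (x 1 * y 0) + c * u = 0 →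
      a = 0 ∧ b = 0 ∧ c = 0) : PrdR C 3 2 2 (pt6 x y u) := by
  classical
  have hy0 : y 0 ≠ 0 := hy.ne_zero 0
  refine ⟨![x 0, x 1, u / y 0], y, ?_, hy, ?_, ?_⟩
  · rw [Fintype.linearIndependent_iff]
    intro g hg
    rw [Fin.sum_univ_three] at hg
    simp only [Matrix.cons_val_zero, Matrix.cons_val_one, Matrix.cons_val, Rat.smul_def] at hg
    obtain ⟨h1, h2, h3⟩ := hli (g 0) (g 1) (g 2) (by
      have : (g 0 : ℂ) * (x 0 * y 0) + g 1 * (x 1 * y 0) + g 2 * u =
        y 0 * ((g 0 : ℂ) * x 0 + g 1 * x 1 + g 2 * (u / y 0)) := by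
        field_simp
      rw [this, hg, mul_zero])
    intro i
    fin_cases i
    · exact h1
    · exact h2
    · exact h3
  · intro i j
    fin_cases i <;> fin_cases j
    · rfl
    · rfl
    · rfl
    · rfl
    · change u = u / y 0 * y 0
      field_simp
    · change u * (y 1 / y 0) = u / y 0 * y 1
      ring
  · have h1 : EX (pt6 x y u) ⊆ (MK C).closure {Complex.exp u, Complex.exp (u * (y 1 / y 0))} := by
      rintro _ ⟨p, rfl⟩
      rw [← mem_clo_iff]
      have h2 : clo C (∅ : Set ℂ) ≤ clo C {Complex.exp u, Complex.exp (u * (y 1 / y 0))} :=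
        Pool.Agent.Y685.clo_le (fun s hs => absurd hs (by simp))
      fin_cases p
      · exact h2 (h 0 0)
      · exact h2 (h 0 1)
      · exact h2 (h 1 0)
      · exact h2 (h 1 1)
      · exact subset_clo (by change Complex.exp u ∈ _; simp)
      · exact subset_clo (by change Complex.exp (u * (y 1 / y 0)) ∈ _; simp)
    refine (rk_le_of_subset_cl h1).trans (((MK C).eRk_le_encard _).trans ?_)
    refine (encard_insert_le _ _).trans ?_
    rw [encard_singleton]
    norm_num

end Pool.Agent.H445
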